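import Pool.Agent.Lib.OC93.Asy2

set_option autoImplicit false

/-!
Weights with a density on all dilated intervals; relative inclusion-exclusion.
-/

namespace Pool.Agent.Lib.TC93

open Finset Pool.Agent.Lib.MP_ba437d_nt Pool.Agent.Lib.OC93

/-- all prime factors of `m` exceed `Z` -/
def rough (Z : ℝ) (m : ℕ) : Prop := 0 < m ∧ ∀ p : ℕ, p.Prime → p ∣ m → Z < (p : ℝ)

theorem rough_one (Z : ℝ) : rough Z 1 :=
  ⟨one_pos, fun p hp h => absurd (Nat.dvd_one.1 h) hp.one_lt.ne'⟩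

theorem rough_prime {Z : ℝ} {p : ℕ} (hp : p.Prime) (h : Z < (p : ℝ)) : rough Z p :=
  ⟨hp.pos, fun q hq hqp => by
    rw [(Nat.prime_dvd_prime_iff_eq hq hp).1 hqp]
    exact h⟩

theorem rough_mul {Z : ℝ} {m n : ℕ} (hm : rough Z m) (hn : rough Z n) : rough Z (m * n) :=
  ⟨Nat.mul_pos hm.1 hn.1, fun p hp h => (hp.dvd_mul.1 h).elim (hm.2 p hp) (hn.2 p hp)⟩

theorem rough_prod {Z : ℝ} (Q : Finset ℕ) (hQ : ∀ p ∈ Q, p.Prime ∧ Z < (p : ℝ)) :
    rough Z (∏ p ∈ Q, p) := by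
  classical
  induction Q using Finset.induction with
  | empty => rw [prod_empty]; exact rough_one Z
  | insert q Q hq ih =>
    rw [prod_insert hq]
    exact rough_mul (rough_prime (hQ q (mem_insert_self _ _)).1 (hQ q (mem_insert_self _ _)).2)
      (ih fun p hp => hQ p (mem_insert_of_mem hp))

/-- `f` has density `ρ` on the dilated intervals of length at least `X₀` -/
def Lev (f : ℕ → ℝ) (ρ Z X₀ ε : ℝ) : Prop :=
  ∀ m : ℕ, rough Z m → ∀ A B : ℕ, (A : ℝ) + X₀ ≤ B →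
    |∑ r ∈ Ioc A B, f (m * r) - ρ * ((B : ℝ) - A)| ≤ ε * (ρ * ((B : ℝ) - A))

theorem Lev.dil {f : ℕ → ℝ} {ρ Z X₀ ε : ℝ} (h : Lev f ρ Z X₀ ε) {w : ℕ} (hw : rough Z w) :
    Lev (fun n => f (w * n)) ρ Z X₀ ε := by
  intro m hm A B hAB
  have h1 := h (w * m) (rough_mul hw hm) A B hAB
  simp only [mul_assoc] at h1
  exact h1

theorem Lev.mono {f : ℕ → ℝ} {ρ Z X₀ ε X₁ ε' : ℝ} (h : Lev f ρ Z X₀ ε) (hX₀ : 0 ≤ X₀)
    (hX : X₀ ≤ X₁) (hε : ε ≤ ε') (hρ : 0 ≤ ρ) : Lev f ρ Z X₁ ε' := by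
  intro m hm A B hAB
  refine (h m hm A B (by linarith)).trans (mul_le_mul_of_nonneg_right hε ?_)
  exact mul_nonneg hρ (by linarith)

/-- indicator of the integers free of the primes of `P` -/
noncomputable def fr (P : Finset ℕ) (n : ℕ) : ℝ := if ∀ p ∈ P, ¬ p ∣ n then 1 else 0

theorem fr_nonneg (P : Finset ℕ) (n : ℕ) : 0 ≤ fr P n := by
  unfold fr; split_ifs <;> norm_num

theorem fr_le_one (P : Finset ℕ) (n : ℕ) : fr P n ≤ 1 := by
  unfold fr; split_ifs <;> norm_num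

theorem fr_anti {P Q : Finset ℕ} (h : P ⊆ Q) (n : ℕ) : fr Q n ≤ fr P n := by
  unfold fr
  by_cases h1 : ∀ p ∈ Q, ¬ p ∣ n
  · rw [if_pos h1, if_pos fun p hp => h1 p (h hp)]
  · rw [if_neg h1]
    split_ifs <;> norm_num

/-- the multiples of `d` -/
theorem sum_dvd (A B d : ℕ) (hd : 0 < d) (F : ℕ → ℝ) :
    ∑ n ∈ Ioc A B, (if d ∣ n then F n else 0) = ∑ r ∈ Ioc (A / d) (B / d), F (d * r) := by
  rw [← sum_filter]
  symm
  apply sum_bij (fun r _ => d * r)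
  · intro r hr
    rw [mem_Ioc] at hr
    rw [mem_filter, mem_Ioc]
    refine ⟨⟨?_, ?_⟩, dvd_mul_right _ _⟩
    · have := hr.1
      rw [Nat.div_lt_iff_lt_mul hd] at this
      rw [mul_comm]
      exact this
    · have := hr.2
      rw [Nat.le_div_iff_mul_le hd] at this
      rw [mul_comm]
      exact this
  · intro r _ r' _ h
    exact Nat.eq_of_mul_eq_mul_left hd h
  · intro n hn
    rw [mem_filter, mem_Ioc] at hn
    obtain ⟨⟨h1, h2⟩, k, rfl⟩ := hn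
    refine ⟨k, ?_, rfl⟩
    rw [mem_Ioc, Nat.div_lt_iff_lt_mul hd, Nat.le_div_iff_mul_le hd, mul_comm k d]
    exact ⟨h1, h2⟩
  · intro r _
    rfl

/-- lengths of the divided intervals -/
theorem div_len (A B d : ℕ) (hd : 0 < d) :
    ((B : ℝ) - A) / d - 1 ≤ ((B / d : ℕ) : ℝ) - ((A / d : ℕ) : ℝ) ∧
      ((B / d : ℕ) : ℝ) - ((A / d : ℕ) : ℝ) ≤ ((B : ℝ) - A) / d + 1 := by
  have hd0 : (0 : ℝ) < d := by exact_mod_cast hd
  have e1 : (A : ℝ) = d * ((A / d : ℕ) : ℝ) + ((A % d : ℕ) : ℝ) := by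
    exact_mod_cast (Nat.div_add_mod A d).symm
  have e2 : (B : ℝ) = d * ((B / d : ℕ) : ℝ) + ((B % d : ℕ) : ℝ) := by
    exact_mod_cast (Nat.div_add_mod B d).symm
  have l1 : ((A % d : ℕ) : ℝ) ≤ d := by exact_mod_cast (Nat.mod_lt A hd).le
  have l2 : ((B % d : ℕ) : ℝ) ≤ d := by exact_mod_cast (Nat.mod_lt B hd).le
  have n1 : (0 : ℝ) ≤ ((A % d : ℕ) : ℝ) := by positivity
  have n2 : (0 : ℝ) ≤ ((B % d : ℕ) : ℝ) := by positivity
  constructor
  · rw [sub_le_iff_le_add, div_le_iff₀ hd0]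
    nlinarith
  · rw [← sub_le_iff_le_add, le_div_iff₀ hd0]
    nlinarith

/-- the multiples of `d`, with weights -/
theorem Lev.div {f : ℕ → ℝ} {ρ Z X₀ ε : ℝ} (h : Lev f ρ Z X₀ ε) (hρ : 0 < ρ) (hε : 0 < ε)
    (hε1 : ε ≤ 1) (hX₀ : 2 / ε ≤ X₀) {d : ℕ} (hd : rough Z d) (A B : ℕ)
    (hAB : (X₀ + 1) * d ≤ (B : ℝ) - A) :
    |∑ n ∈ Ioc A B, (if d ∣ n then f n else 0) - ρ * ((B : ℝ) - A) * (1 / (d : ℝ))| ≤
      2 * ε * (ρ * ((B : ℝ) - A) * (1 / (d : ℝ))) := by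
  rw [sum_dvd A B d hd.1]
  have hd0 : (0 : ℝ) < d := by exact_mod_cast hd.1
  obtain ⟨h1, h2⟩ := div_len A B d hd.1
  set ℓ : ℝ := ((B / d : ℕ) : ℝ) - ((A / d : ℕ) : ℝ) with hℓ
  set t : ℝ := ((B : ℝ) - A) / d with ht
  have ht1 : X₀ + 1 ≤ t := by
    rw [ht, le_div_iff₀ hd0]
    exact hAB
  have h3 := h d hd (A / d) (B / d) (by linarith)
  rw [← hℓ] at h3
  have e : ρ * ((B : ℝ) - A) * (1 / (d : ℝ)) = ρ * t := by
    rw [ht]
    ring
  rw [e]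
  have h4 : 2 ≤ ε * t := by
    rw [div_le_iff₀ hε] at hX₀
    nlinarith
  have h5 : |ρ * ℓ - ρ * t| ≤ ρ := by
    rw [← mul_sub, abs_mul, abs_of_pos hρ]
    have : |ℓ - t| ≤ 1 := by
      rw [abs_le]
      constructor <;> linarith
    nlinarith
  have h6 : ε * (ρ * ℓ) ≤ ε * (ρ * (t + 1)) :=
    mul_le_mul_of_nonneg_left (mul_le_mul_of_nonneg_left (by linarith) hρ.le) hε.le
  calc |∑ r ∈ Ioc (A / d) (B / d), f (d * r) - ρ * t| =
      |(∑ r ∈ Ioc (A / d) (B / d), f (d * r) - ρ * ℓ) + (ρ * ℓ - ρ * t)| := by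
        congr 1
        ring
    _ ≤ |∑ r ∈ Ioc (A / d) (B / d), f (d * r) - ρ * ℓ| + |ρ * ℓ - ρ * t| := abs_add_le _ _
    _ ≤ ε * (ρ * (t + 1)) + ρ := by linarith
    _ ≤ 2 * ε * (ρ * t) := by nlinarith

/-- products of distinct primes -/
theorem dvd_all (Q : Finset ℕ) (hQ : ∀ p ∈ Q, p.Prime) (n : ℕ) :
    (∀ p ∈ Q, p ∣ n) ↔ ∏ p ∈ Q, p ∣ n := by
  constructor
  · intro h
    exact Finset.prod_primes_dvd n (fun p hp => (hQ p hp).prime) h
  · intro h p hp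
    exact (dvd_prod_of_mem _ hp).trans h

/-- the binomial sums as sums over the subsets -/
theorem choose_sum (P : Finset ℕ) (j n : ℕ) :
    ((((P.filter (fun p => p ∣ n)).card.choose j : ℕ)) : ℝ) =
      ∑ Q ∈ powersetCard j P, if (∀ p ∈ Q, p ∣ n) then (1 : ℝ) else 0 := by
  classical
  rw [← card_powersetCard, sum_ite, sum_const_zero, add_zero, sum_const, nsmul_eq_mul, mul_one]
  congr 2
  ext Q
  simp only [mem_powersetCard, mem_filter]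
  constructor
  · rintro ⟨h, h'⟩
    exact ⟨⟨fun p hp => (mem_filter.1 (h hp)).1, h'⟩, fun p hp => (mem_filter.1 (h hp)).2⟩
  · rintro ⟨⟨h, h'⟩, h''⟩
    exact ⟨fun p hp => mem_filter.2 ⟨h hp, h'' p hp⟩, h'⟩

/-- relative inclusion-exclusion -/
theorem Lev.bon {f : ℕ → ℝ} {ρ Z X₀ ε : ℝ} (h : Lev f ρ Z X₀ ε) (hf : ∀ n, 0 ≤ f n)
    (hρ : 0 < ρ) (hε : 0 < ε) (hε1 : ε ≤ 1) (hX₀ : 2 / ε ≤ X₀) (P : Finset ℕ)
    (hP : ∀ p ∈ P, p.Prime ∧ Z < (p : ℝ)) {K : ℝ} (hK : ∑ p ∈ P, 1 / (p : ℝ) ≤ K) (Y : ℝ)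
    (hY : 1 ≤ Y) (hPY : ∀ p ∈ P, (p : ℝ) ≤ Y) (r : ℕ) (A B : ℕ)
    (hAB : (X₀ + 1) * Y ^ (r + 1) ≤ (B : ℝ) - A) :
    |∑ n ∈ Ioc A B, f n * fr P n - ρ * ((B : ℝ) - A) * ∏ p ∈ P, (1 - 1 / (p : ℝ))| ≤
      ρ * ((B : ℝ) - A) * (4 * tau K r + 2 * ε * Real.exp K) := by
  classical
  have hK0 : 0 ≤ K := le_trans (sum_nonneg fun p _ => by positivity) hK
  have hX0 : 0 ≤ X₀ := le_trans (by positivity) hX₀
  have hBA : 0 ≤ (B : ℝ) - A := le_trans (by positivity) hAB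
  set X : ℝ := (B : ℝ) - A with hX
  have hρX : 0 ≤ ρ * X := mul_nonneg hρ.le hBA
  set S : ℕ → ℝ := fun j => ∑ Q ∈ powersetCard j P, ∑ n ∈ Ioc A B,
    (if (∏ p ∈ Q, p) ∣ n then f n else 0) with hS
  have hEle : ∀ j, E j P ≤ K ^ j / (j.factorial : ℝ) := fun j =>
    (E_le j P).trans (div_le_div_of_nonneg_right
      (pow_le_pow_left₀ (sum_nonneg fun p _ => by positivity) hK j) (by positivity))
  have h1 : ∀ j, j ≤ r + 1 → |S j - ρ * X * E j P| ≤ 2 * ε * (ρ * X * E j P) := by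
    intro j hj
    have e1 : S j - ρ * X * E j P = ∑ Q ∈ powersetCard j P, (∑ n ∈ Ioc A B,
        (if (∏ p ∈ Q, p) ∣ n then f n else 0) - ρ * X * W Q) := by
      rw [hS, sum_sub_distrib, ← mul_sum]
      rfl
    have e2 : 2 * ε * (ρ * X * E j P) = ∑ Q ∈ powersetCard j P, 2 * ε * (ρ * X * W Q) := by
      unfold E
      rw [mul_sum, mul_sum]
    rw [e1, e2]
    refine (abs_sum_le_sum_abs _ _).trans (sum_le_sum fun Q hQ => ?_)
    rw [mem_powersetCard] at hQ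
    have hr := rough_prod Q fun p hp => hP p (hQ.1 hp)
    have hle : ((∏ p ∈ Q, p : ℕ) : ℝ) ≤ Y ^ (r + 1) := by
      push_cast
      calc ∏ p ∈ Q, (p : ℝ) ≤ ∏ _p ∈ Q, Y := prod_le_prod (fun _ _ => by positivity)
            fun p hp => hPY p (hQ.1 hp)
        _ = Y ^ j := by rw [prod_const, hQ.2]
        _ ≤ Y ^ (r + 1) := pow_le_pow_right₀ hY hj
    have h2 := h.div hρ hε hε1 hX₀ hr A B
      ((mul_le_mul_of_nonneg_left hle (by linarith)).trans hAB)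
    rw [W_eq]
    exact h2
  have h2 : ∀ j, S j = ∑ n ∈ Ioc A B, f n *
      ((((P.filter (fun p => p ∣ n)).card.choose j : ℕ)) : ℝ) := by
    intro j
    rw [hS]
    simp only
    rw [sum_comm]
    refine sum_congr rfl fun n _ => ?_
    rw [choose_sum, mul_sum]
    refine sum_congr rfl fun Q hQ => ?_
    rw [mem_powersetCard] at hQ
    by_cases hd : ∏ p ∈ Q, p ∣ n
    · rw [if_pos hd, if_pos ((dvd_all Q (fun p hp => (hP p (hQ.1 hp)).1) n).2 hd), mul_one]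
    · rw [if_neg hd, if_neg fun h' => hd ((dvd_all Q (fun p hp => (hP p (hQ.1 hp)).1) n).1 h'),
        mul_zero]
  have h3 : ∀ n, fr P n = if (P.filter (fun p => p ∣ n)).card = 0 then (1 : ℝ) else 0 := by
    intro n
    unfold fr
    simp only [card_eq_zero, filter_eq_empty_iff]
  have h4 : |∑ n ∈ Ioc A B, f n * fr P n - ∑ j ∈ range (r + 1), (-1 : ℝ) ^ j * S j| ≤ S (r + 1) := by
    have e1 : ∑ j ∈ range (r + 1), (-1 : ℝ) ^ j * S j = ∑ n ∈ Ioc A B, f n *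
        ∑ j ∈ range (r + 1), (-1 : ℝ) ^ j *
          ((((P.filter (fun p => p ∣ n)).card.choose j : ℕ)) : ℝ) := by
      simp only [h2, mul_sum]
      rw [sum_comm]
      refine sum_congr rfl fun n _ => sum_congr rfl fun j _ => ?_
      ring
    rw [e1, ← sum_sub_distrib, h2 (r + 1)]
    refine (abs_sum_le_sum_abs _ _).trans (sum_le_sum fun n _ => ?_)
    rw [← mul_sub, abs_mul, abs_of_nonneg (hf n), h3 n, abs_sub_comm]
    exact mul_le_mul_of_nonneg_left (bonf _ r) (hf n)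
  have hτ : E (r + 1) P ≤ tau K r := by
    refine (hEle (r + 1)).trans ?_
    have := tau_bound hK0 r {r + 1} (by simp)
    simpa using this
  have hτ0 := tau_nonneg hK0 r
  have h5 : S (r + 1) ≤ ρ * X * (3 * tau K r) := by
    have g1 := (abs_le.1 (h1 (r + 1) le_rfl)).2
    have g2 : ρ * X * E (r + 1) P ≤ ρ * X * tau K r := mul_le_mul_of_nonneg_left hτ hρX
    have g3 : 0 ≤ ρ * X * E (r + 1) P := mul_nonneg hρX (E_nonneg _ _)
    nlinarith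
  have hexp : ∑ j ∈ range (r + 1), E j P ≤ Real.exp K := by
    refine (sum_le_sum fun j _ => hEle j).trans ?_
    unfold tau at hτ0
    linarith
  have h6 : |∑ j ∈ range (r + 1), (-1 : ℝ) ^ j * S j -
      ρ * X * ∑ j ∈ range (r + 1), (-1 : ℝ) ^ j * E j P| ≤ 2 * ε * (ρ * X * Real.exp K) := by
    rw [mul_sum, ← sum_sub_distrib]
    refine (abs_sum_le_sum_abs _ _).trans ?_
    have g1 : ∀ j ∈ range (r + 1), |(-1 : ℝ) ^ j * S j - ρ * X * ((-1 : ℝ) ^ j * E j P)| ≤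
        2 * ε * (ρ * X) * E j P := by
      intro j hj
      rw [mem_range] at hj
      have e : (-1 : ℝ) ^ j * S j - ρ * X * ((-1 : ℝ) ^ j * E j P) =
          (-1 : ℝ) ^ j * (S j - ρ * X * E j P) := by ring
      rw [e, abs_mul, abs_pow, abs_neg, abs_one, one_pow, one_mul]
      refine (h1 j (by omega)).trans (le_of_eq (by ring))
    refine (sum_le_sum g1).trans ?_
    rw [← mul_sum]
    have := mul_le_mul_of_nonneg_left hexp (show 0 ≤ 2 * ε * (ρ * X) by positivity)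
    linarith
  have h7 := trunc P hK r
  have h8 : |ρ * X * ∑ j ∈ range (r + 1), (-1 : ℝ) ^ j * E j P -
      ρ * X * ∏ p ∈ P, (1 - 1 / (p : ℝ))| ≤ ρ * X * tau K r := by
    rw [← mul_sub, abs_mul, abs_of_nonneg hρX]
    exact mul_le_mul_of_nonneg_left h7 hρX
  obtain ⟨a1, a2⟩ := abs_le.1 h4
  obtain ⟨a3, a4⟩ := abs_le.1 h6
  obtain ⟨a5, a6⟩ := abs_le.1 h8
  rw [abs_le]
  constructor <;> nlinarith

end Pool.Agent.Lib.TC93
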