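import Pool.Agent.Lib.TC93.D1

set_option autoImplicit false

/-!
Density of the integers free of the primes of `P`, finite form, when the large primes of `P` have
mass at most `1 / 2`.
-/

namespace Pool.Agent.Lib.TC93

open Finset Pool.Agent.Lib.MP_ba437d_nt Pool.Agent.Lib.OC93

/-- primes of `P` in `(s, t]` -/
noncomputable def rg (P : Finset ℕ) (s t : ℝ) : Finset ℕ := by
  classical
  exact P.filter (fun p : ℕ => s < (p : ℝ) ∧ (p : ℝ) ≤ t)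

theorem mem_rg {P : Finset ℕ} {s t : ℝ} {p : ℕ} :
    p ∈ rg P s t ↔ p ∈ P ∧ s < (p : ℝ) ∧ (p : ℝ) ≤ t := by
  unfold rg
  rw [mem_filter]

/-- primes of `P` up to `t` -/
noncomputable def lo (P : Finset ℕ) (t : ℝ) : Finset ℕ := by
  classical
  exact P.filter (fun p : ℕ => (p : ℝ) ≤ t)

theorem mem_lo {P : Finset ℕ} {t : ℝ} {p : ℕ} : p ∈ lo P t ↔ p ∈ P ∧ (p : ℝ) ≤ t := by
  unfold lo
  rw [mem_filter]

theorem sum_sub_le {P Q : Finset ℕ} (h : P ⊆ Q) :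
    ∑ p ∈ P, 1 / (p : ℝ) ≤ ∑ p ∈ Q, 1 / (p : ℝ) :=
  sum_le_sum_of_subset_of_nonneg h fun _ _ _ => by positivity

/-- multiplying by a number without primes of `P` -/
theorem fr_mul (P : Finset ℕ) (hP : ∀ p ∈ P, p.Prime) (w r : ℕ) (hw : ∀ p ∈ P, ¬ p ∣ w) :
    fr P (w * r) = fr P r := by
  unfold fr
  have : (∀ p ∈ P, ¬ p ∣ w * r) ↔ (∀ p ∈ P, ¬ p ∣ r) := by
    refine forall₂_congr fun p hp => not_congr ?_
    rw [(hP p hp).dvd_mul]
    exact or_iff_right (hw p hp)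
  simp only [this]

theorem ptw4 (P : Finset ℕ) (T₁ T₂ T₃ T₄ : ℝ) (n : ℕ) (hn : 0 < n) (hnT : (n : ℝ) ≤ T₄) :
    fr (lo P T₁) n - ∑ p ∈ rg P T₁ T₂, (if p ∣ n then fr (lo P T₁) n else 0) -
      ∑ p ∈ rg P T₂ T₃, (if p ∣ n then (1 : ℝ) else 0) -
      ∑ p ∈ rg P T₃ T₄, (if p ∣ n then (1 : ℝ) else 0) ≤ fr P n := by
  classical
  have h1 : 0 ≤ ∑ p ∈ rg P T₁ T₂, (if p ∣ n then fr (lo P T₁) n else 0) :=
    sum_nonneg fun p _ => by
      split_ifs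
      · exact fr_nonneg _ _
      · exact le_rfl
  have h2 : 0 ≤ ∑ p ∈ rg P T₂ T₃, (if p ∣ n then (1 : ℝ) else 0) :=
    sum_nonneg fun p _ => by split_ifs <;> norm_num
  have h3 : 0 ≤ ∑ p ∈ rg P T₃ T₄, (if p ∣ n then (1 : ℝ) else 0) :=
    sum_nonneg fun p _ => by split_ifs <;> norm_num
  have h4 := fr_nonneg P n
  by_cases c0 : ∀ p ∈ lo P T₁, ¬ p ∣ n
  · have e0 : fr (lo P T₁) n = 1 := by
      unfold fr
      exact if_pos c0
    rw [e0] at h1 ⊢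
    by_cases c : ∀ p ∈ P, ¬ p ∣ n
    · have e1 : fr P n = 1 := by
        unfold fr
        exact if_pos c
      rw [e1]
      linarith
    · push Not at c
      obtain ⟨p, hp, hpn⟩ := c
      have hpT : (p : ℝ) ≤ T₄ := by
        have : (p : ℝ) ≤ n := by exact_mod_cast Nat.le_of_dvd hn hpn
        linarith
      have hp1 : T₁ < (p : ℝ) := by
        by_contra hcon
        push Not at hcon
        exact c0 p (mem_lo.2 ⟨hp, hcon⟩) hpn
      rcases le_or_gt (p : ℝ) T₂ with g | g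
      · have h5 : (1 : ℝ) ≤ ∑ p ∈ rg P T₁ T₂, (if p ∣ n then (1 : ℝ) else 0) := by
          calc (1 : ℝ) = if p ∣ n then (1 : ℝ) else 0 := (if_pos hpn).symm
            _ ≤ _ := single_le_sum (f := fun p => if p ∣ n then (1 : ℝ) else 0)
              (fun p _ => by split_ifs <;> norm_num) (mem_rg.2 ⟨hp, hp1, g⟩)
        linarith
      · rcases le_or_gt (p : ℝ) T₃ with g' | g'
        · have h5 : (1 : ℝ) ≤ ∑ p ∈ rg P T₂ T₃, (if p ∣ n then (1 : ℝ) else 0) := by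
            calc (1 : ℝ) = if p ∣ n then (1 : ℝ) else 0 := (if_pos hpn).symm
              _ ≤ _ := single_le_sum (f := fun p => if p ∣ n then (1 : ℝ) else 0)
                (fun p _ => by split_ifs <;> norm_num) (mem_rg.2 ⟨hp, g, g'⟩)
          linarith
        · have h5 : (1 : ℝ) ≤ ∑ p ∈ rg P T₃ T₄, (if p ∣ n then (1 : ℝ) else 0) := by
            calc (1 : ℝ) = if p ∣ n then (1 : ℝ) else 0 := (if_pos hpn).symm
              _ ≤ _ := single_le_sum (f := fun p => if p ∣ n then (1 : ℝ) else 0)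
                (fun p _ => by split_ifs <;> norm_num) (mem_rg.2 ⟨hp, g', hpT⟩)
          linarith
  · have e0 : fr (lo P T₁) n = 0 := by
      unfold fr
      exact if_neg c0
    rw [e0] at h1 ⊢
    linarith

/-- the finite form -/
theorem case1 {f : ℕ → ℝ} {ρ Z X₀ ε : ℝ} (h : Lev f ρ Z X₀ ε) (hf : ∀ n, 0 ≤ f n ∧ f n ≤ 1)
    (hρ : 0 < ρ) (hε : 0 < ε) (hε1 : ε ≤ 1) (hX₀ : 2 / ε ≤ X₀) (P : Finset ℕ)
    (hP : ∀ p ∈ P, p.Prime ∧ Z < (p : ℝ)) {K : ℝ} (hK : ∑ p ∈ P, 1 / (p : ℝ) ≤ K) (r : ℕ)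
    (T₁ T₂ T₃ : ℝ) (hT₁ : 1 ≤ T₁) (hT12 : T₁ ≤ T₂) (hT23 : T₂ ≤ T₃) (x b : ℕ) (e μ₃ μ₄ μ₅ : ℝ)
    (he : 4 * tau K r + 2 * ε * Real.exp K ≤ e) (he0 : 0 < e) (he1 : e ≤ 1)
    (hx1 : (X₀ + 1) * T₁ ^ (r + 1) ≤ x / T₂ - 1) (hx2 : 2 / e ≤ x / T₂)
    (hx3 : (X₀ + 1) * T₃ ≤ x)
    (m2 : ∑ p ∈ rg P T₁ T₂, 1 / (p : ℝ) ≤ 1 / 2) (m3 : ∑ p ∈ rg P T₂ T₃, 1 / (p : ℝ) ≤ μ₃)
    (m4 : ∑ p ∈ rg P T₃ ((b + x : ℕ) : ℝ), 1 / (p : ℝ) ≤ μ₄ * ρ)
    (c4 : ((rg P T₃ ((b + x : ℕ) : ℝ)).card : ℝ) ≤ μ₅ * ρ * x) :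
    ρ * x * ((∏ p ∈ lo P T₁, (1 - 1 / (p : ℝ))) / 2 - 2 * e - 3 * μ₃ - μ₄ - μ₅) ≤
      ∑ n ∈ Ioc b (b + x), f n * fr P n := by
  classical
  have hT₂ : 1 ≤ T₂ := hT₁.trans hT12
  have hT₃ : 1 ≤ T₃ := hT₂.trans hT23
  have hX0 : 0 ≤ X₀ := le_trans (by positivity) hX₀
  have hx0 : (0 : ℝ) ≤ x := by positivity
  set V : ℝ := ∏ p ∈ lo P T₁, (1 - 1 / (p : ℝ)) with hV
  have hloP : ∀ p ∈ lo P T₁, p.Prime ∧ Z < (p : ℝ) := fun p hp => hP p (mem_lo.1 hp).1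
  have hV1 : V ≤ 1 := prod_le_one' _ fun p hp => (hloP p hp).1
  have hloK : ∑ p ∈ lo P T₁, 1 / (p : ℝ) ≤ K :=
    (sum_sub_le fun p hp => (mem_lo.1 hp).1).trans hK
  have hbx : ((b + x : ℕ) : ℝ) - b = x := by push_cast; ring
  -- small primes
  have hxT : (x : ℝ) / T₂ ≤ x := div_le_self hx0 hT₂
  have h1 := h.bon (fun n => (hf n).1) hρ hε hε1 hX₀ (lo P T₁) hloP hloK T₁ hT₁
    (fun p hp => (mem_lo.1 hp).2) r b (b + x) (by rw [hbx]; linarith)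
  rw [hbx] at h1
  have h1' : ρ * x * (V - e) ≤ ∑ n ∈ Ioc b (b + x), f n * fr (lo P T₁) n := by
    have g := (abs_le.1 h1).1
    have g2 : ρ * x * (4 * tau K r + 2 * ε * Real.exp K) ≤ ρ * x * e :=
      mul_le_mul_of_nonneg_left he (by positivity)
    linarith
  -- second range
  have h2 : ∀ p ∈ rg P T₁ T₂, ∑ n ∈ Ioc b (b + x), f n * (if p ∣ n then fr (lo P T₁) n else 0) ≤
      ρ * x * (V + 2 * e) * (1 / (p : ℝ)) := by
    intro p hp
    obtain ⟨hpP, hp1, hp2⟩ := mem_rg.1 hp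
    obtain ⟨hpp, hpZ⟩ := hP p hpP
    have hp0 : (0 : ℝ) < p := by exact_mod_cast hpp.pos
    have e1 : ∑ n ∈ Ioc b (b + x), f n * (if p ∣ n then fr (lo P T₁) n else 0) =
        ∑ r ∈ Ioc (b / p) ((b + x) / p), f (p * r) * fr (lo P T₁) r := by
      have g0 := sum_dvd b (b + x) p hpp.pos (fun n => f n * fr (lo P T₁) n)
      have g1 : ∑ n ∈ Ioc b (b + x), f n * (if p ∣ n then fr (lo P T₁) n else 0) =
          ∑ n ∈ Ioc b (b + x), (if p ∣ n then f n * fr (lo P T₁) n else 0) :=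
        sum_congr rfl fun n _ => by split_ifs <;> simp
      rw [g1, g0]
      refine sum_congr rfl fun r _ => ?_
      rw [fr_mul (lo P T₁) (fun q hq => (hloP q hq).1) p r]
      intro q hq hqp
      rw [(Nat.prime_dvd_prime_iff_eq (hloP q hq).1 hpp).1 hqp] at hq
      linarith [(mem_lo.1 hq).2]
    obtain ⟨l1, l2⟩ := div_len b (b + x) p hpp.pos
    rw [hbx] at l1 l2
    have hxp : (x : ℝ) / T₂ ≤ x / p := div_le_div_of_nonneg_left hx0 hp0 hp2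
    have g := (h.dil (rough_prime hpp hpZ)).bon (fun n => (hf (p * n)).1) hρ hε hε1 hX₀ (lo P T₁)
      hloP hloK T₁ hT₁ (fun p hp => (mem_lo.1 hp).2) r (b / p) ((b + x) / p) (by linarith)
    set ℓ : ℝ := (((b + x) / p : ℕ) : ℝ) - ((b / p : ℕ) : ℝ) with hℓ
    have hX1 : (0 : ℝ) ≤ (X₀ + 1) * T₁ ^ (r + 1) := by positivity
    have hℓ0 : 0 ≤ ℓ := by linarith
    rw [e1]
    have g1 := (abs_le.1 g).2
    have g2 : ρ * ℓ * (4 * tau K r + 2 * ε * Real.exp K) ≤ ρ * ℓ * e :=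
      mul_le_mul_of_nonneg_left he (by positivity)
    have hV0 : 0 ≤ V := prod_nonneg fun q hq => by
      have : (1 : ℝ) ≤ q := by exact_mod_cast (hloP q hq).1.one_le
      have : 1 / (q : ℝ) ≤ 1 := by
        rw [div_le_one (by linarith)]
        exact this
      linarith
    have g3 : ρ * ℓ * (V + e) ≤ ρ * (x / p + 1) * (V + e) :=
      mul_le_mul_of_nonneg_right (mul_le_mul_of_nonneg_left l2 hρ.le) (by linarith)
    have g4 : 2 ≤ e * (x / p) := by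
      rw [div_le_iff₀ he0] at hx2
      have : (x : ℝ) / T₂ * e ≤ x / p * e := mul_le_mul_of_nonneg_right hxp he0.le
      linarith
    have e5 : ρ * x * (V + 2 * e) * (1 / (p : ℝ)) = ρ * ((x / p) * (V + 2 * e)) := by ring
    rw [e5]
    have g5 : (x / p + 1) * (V + e) ≤ (x / p) * (V + 2 * e) := by nlinarith
    have g6 := mul_le_mul_of_nonneg_left g5 hρ.le
    have g1' : ∑ r ∈ Ioc (b / p) ((b + x) / p), f (p * r) * fr (lo P T₁) r ≤
        ρ * ℓ * V + ρ * ℓ * (4 * tau K r + 2 * ε * Real.exp K) := by linarith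
    linarith
  -- third range
  have h3 : ∀ p ∈ rg P T₂ T₃, ∑ n ∈ Ioc b (b + x), f n * (if p ∣ n then (1 : ℝ) else 0) ≤
      3 * (ρ * x) * (1 / (p : ℝ)) := by
    intro p hp
    obtain ⟨hpP, hp1, hp2⟩ := mem_rg.1 hp
    obtain ⟨hpp, hpZ⟩ := hP p hpP
    have hp0 : (0 : ℝ) < p := by exact_mod_cast hpp.pos
    have g := h.div hρ hε hε1 hX₀ (rough_prime hpp hpZ) b (b + x) (by
      rw [hbx]
      have : (X₀ + 1) * p ≤ (X₀ + 1) * T₃ := mul_le_mul_of_nonneg_left hp2 (by linarith)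
      linarith)
    rw [hbx] at g
    have g1 := (abs_le.1 g).2
    have e1 : ∑ n ∈ Ioc b (b + x), f n * (if p ∣ n then (1 : ℝ) else 0) =
        ∑ n ∈ Ioc b (b + x), (if p ∣ n then f n else 0) :=
      sum_congr rfl fun n _ => by split_ifs <;> simp
    rw [e1]
    have g2 : 0 ≤ ρ * x * (1 / (p : ℝ)) := by positivity
    nlinarith
  -- fourth range
  have h4 : ∀ p ∈ rg P T₃ ((b + x : ℕ) : ℝ), ∑ n ∈ Ioc b (b + x),
      f n * (if p ∣ n then (1 : ℝ) else 0) ≤ x * (1 / (p : ℝ)) + 1 := by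
    intro p hp
    obtain ⟨hpP, hp1, hp2⟩ := mem_rg.1 hp
    obtain ⟨hpp, hpZ⟩ := hP p hpP
    obtain ⟨l1, l2⟩ := div_len b (b + x) p hpp.pos
    rw [hbx] at l2
    have hle : b / p ≤ (b + x) / p := Nat.div_le_div_right (Nat.le_add_right _ _)
    calc ∑ n ∈ Ioc b (b + x), f n * (if p ∣ n then (1 : ℝ) else 0) ≤
        ∑ n ∈ Ioc b (b + x), (if p ∣ n then (1 : ℝ) else 0) := by
          refine sum_le_sum fun n _ => ?_
          have := (hf n).2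
          split_ifs <;> linarith
      _ = ∑ r ∈ Ioc (b / p) ((b + x) / p), (1 : ℝ) := sum_dvd b (b + x) p hpp.pos (fun _ => 1)
      _ = (((b + x) / p : ℕ) : ℝ) - ((b / p : ℕ) : ℝ) := by
          rw [sum_const, Nat.card_Ioc, nsmul_eq_mul, mul_one, Nat.cast_sub hle]
      _ ≤ _ := by
          refine l2.trans (le_of_eq ?_)
          ring
  -- together
  have h5 : ∀ n ∈ Ioc b (b + x), f n * fr (lo P T₁) n -
      ∑ p ∈ rg P T₁ T₂, f n * (if p ∣ n then fr (lo P T₁) n else 0) -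
      ∑ p ∈ rg P T₂ T₃, f n * (if p ∣ n then (1 : ℝ) else 0) -
      ∑ p ∈ rg P T₃ ((b + x : ℕ) : ℝ), f n * (if p ∣ n then (1 : ℝ) else 0) ≤ f n * fr P n := by
    intro n hn
    rw [mem_Ioc] at hn
    have g := ptw4 P T₁ T₂ T₃ ((b + x : ℕ) : ℝ) n (by omega) (by exact_mod_cast hn.2)
    have := mul_le_mul_of_nonneg_left g (hf n).1
    simp only [← mul_sum]
    linarith
  have h6 := sum_le_sum h5
  rw [sum_sub_distrib, sum_sub_distrib, sum_sub_distrib, sum_comm, sum_comm (t := rg P T₂ T₃),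
    sum_comm (t := rg P T₃ ((b + x : ℕ) : ℝ))] at h6
  have k2 := sum_le_sum h2
  have k3 := sum_le_sum h3
  have k4 := sum_le_sum h4
  rw [← mul_sum] at k2 k3
  rw [sum_add_distrib, ← mul_sum, sum_const, nsmul_eq_mul, mul_one] at k4
  have hV0 : 0 ≤ V := prod_nonneg fun q hq => by
    have : (1 : ℝ) ≤ q := by exact_mod_cast (hloP q hq).1.one_le
    have : 1 / (q : ℝ) ≤ 1 := by
      rw [div_le_one (by linarith)]
      exact this
    linarith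
  have k2' : ρ * x * (V + 2 * e) * ∑ p ∈ rg P T₁ T₂, 1 / (p : ℝ) ≤ ρ * x * (V + 2 * e) * (1 / 2) :=
    mul_le_mul_of_nonneg_left m2 (by positivity)
  have k3' : 3 * (ρ * x) * ∑ p ∈ rg P T₂ T₃, 1 / (p : ℝ) ≤ 3 * (ρ * x) * μ₃ :=
    mul_le_mul_of_nonneg_left m3 (by positivity)
  have k4' : (x : ℝ) * ∑ p ∈ rg P T₃ ((b + x : ℕ) : ℝ), 1 / (p : ℝ) ≤ x * (μ₄ * ρ) :=
    mul_le_mul_of_nonneg_left m4 hx0
  linarith

end Pool.Agent.Lib.TC93
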