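import Pool.Agent.Lib.TC93.D2
import Pool.Agent.Lib.MP_ba437d_nt.Star

set_option autoImplicit false

/-!
Density of the integers free of the primes of `P`: the case of large primes of small mass.
-/

namespace Pool.Agent.Lib.TC93

open Finset Filter Topology Pool.Agent.Lib.MP_ba437d_nt Pool.Agent.Lib.OC93

/-- the statement, for primes of mass at most `K` and at most `1 / 2` above `x ^ τ` -/
def Cl1 (K τ : ℝ) : Prop :=
  ∃ δ ε : ℝ, 0 < δ ∧ 0 < ε ∧ ∀ ρ₀ : ℝ, 0 < ρ₀ → ρ₀ ≤ 1 → ∃ θ : ℝ, 0 < θ ∧ ∀ C : ℕ,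
    ∀ᶠ x : ℕ in atTop, ∀ (f : ℕ → ℝ) (ρ Z : ℝ) (P : Finset ℕ) (b : ℕ), ρ₀ ≤ ρ →
      (∀ n, 0 ≤ f n ∧ f n ≤ 1) → Lev f ρ Z ((x : ℝ) ^ θ) ε → (∀ p ∈ P, p.Prime ∧ Z < (p : ℝ)) →
      ∑ p ∈ P, 1 / (p : ℝ) ≤ K → b ≤ C * x →
      ∑ p ∈ P \ lo P ((x : ℝ) ^ τ), 1 / (p : ℝ) ≤ 1 / 2 →
      δ * ρ * x ≤ ∑ n ∈ Ioc b (b + x), f n * fr P n

theorem tendsto_mulC (C : ℕ) : Tendsto (fun x : ℕ => (C + 1) * x) atTop atTop :=
  tendsto_atTop_mono (fun x => Nat.le_mul_of_pos_left x (Nat.succ_pos C)) tendsto_id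

theorem cl1 (K : ℝ) (hK : 0 ≤ K) : ∃ τ : ℝ, 0 < τ ∧ τ < 1 ∧ Cl1 K τ := by
  set V₀ : ℝ := Real.exp (-(Real.log 4 * K)) with hV₀
  have hV0 : 0 < V₀ := Real.exp_pos _
  have hV1 : V₀ ≤ 1 := by
    rw [hV₀, Real.exp_le_one_iff]
    have h1 : 0 ≤ Real.log 4 := Real.log_nonneg (by norm_num)
    nlinarith
  obtain ⟨r, hr⟩ := ((tau_tendsto K).eventually_le_const
    (show (0 : ℝ) < V₀ / 128 by positivity)).exists
  set ε : ℝ := V₀ / (64 * Real.exp K) with hε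
  have hexp : 1 ≤ Real.exp K := Real.one_le_exp hK
  have hε0 : 0 < ε := by positivity
  have hε1 : ε ≤ 1 := by
    rw [hε, div_le_one (by positivity)]
    linarith
  have he : 4 * tau K r + 2 * ε * Real.exp K ≤ V₀ / 16 := by
    have e1 : 2 * ε * Real.exp K = V₀ / 32 := by
      rw [hε]
      field_simp
      norm_num
    rw [e1]
    linarith
  set s₁ : ℝ := Real.exp (-(V₀ / 96)) with hs₁
  have hs₁0 : 0 < s₁ := Real.exp_pos _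
  have hs₁1 : s₁ < 1 := by
    rw [hs₁, Real.exp_lt_one_iff]
    linarith
  have hs₁2 : 1 / 2 ≤ s₁ := by
    have := Real.add_one_le_exp (-(V₀ / 96))
    rw [← hs₁] at this
    linarith
  have hr0 : (0 : ℝ) ≤ r := by positivity
  set τ : ℝ := (1 - s₁) / (2 * (r + 1)) with hτ
  have hτ0 : 0 < τ := div_pos (by linarith) (by positivity)
  have hτ1 : τ ≤ (1 - s₁) / 2 := by
    rw [hτ]
    apply div_le_div_of_nonneg_left (by linarith) (by norm_num)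
    linarith
  refine ⟨τ, hτ0, by linarith, V₀ / 4, ε, by positivity, hε0, fun ρ₀ hρ hρ1 => ?_⟩
  set s₂ : ℝ := Real.exp (-(V₀ * ρ₀ / 128)) with hs₂
  set t₂ : ℝ := Real.exp (V₀ * ρ₀ / 128) with ht₂
  have hVρ : 0 < V₀ * ρ₀ := mul_pos hV0 hρ
  have hs₂0 : 0 < s₂ := Real.exp_pos _
  have hs₂1 : s₂ < 1 := by
    rw [hs₂, Real.exp_lt_one_iff]
    linarith
  have hs12 : s₁ ≤ s₂ := by
    rw [hs₁, hs₂]
    apply Real.exp_le_exp.2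
    have : V₀ * ρ₀ ≤ V₀ * 1 := mul_le_mul_of_nonneg_left hρ1 hV0.le
    linarith
  have ht₂1 : 1 < t₂ := by
    rw [ht₂]
    exact Real.one_lt_exp_iff.2 (by positivity)
  have hlog1 : Real.log (1 / s₁) = V₀ / 96 := by
    rw [one_div, Real.log_inv, hs₁, Real.log_exp, neg_neg]
  have hlog2 : Real.log (t₂ / s₂) = V₀ * ρ₀ / 64 := by
    rw [Real.log_div (by positivity) (by positivity), hs₂, ht₂, Real.log_exp, Real.log_exp]
    ring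
  set θ : ℝ := min ((1 - s₁) / 4) ((1 - s₂) / 2) with hθ
  have hθ0 : 0 < θ := lt_min (by linarith) (by linarith)
  refine ⟨θ, hθ0, fun C => ?_⟩
  filter_upwards [eventually_ge_atTop 1, pow_big θ hθ0 (2 / ε), pow_big ((1 - s₁) / 4) (by linarith) 2,
    pow_big ((1 - s₂) / 2) (by linarith) 2, pow_big (1 - s₁) (by linarith) (2 / (V₀ / 16)),
    pow_big (t₂ - 1) (by linarith) (C + 1),
    mass_le s₁ 1 hs₁0 hs₁1.le (V₀ / 96) (by positivity),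
    mass_le s₂ t₂ hs₂0 (by linarith) (V₀ * ρ₀ / 64) (by positivity),
    (tendsto_mulC C).eventually (count_le (V₀ * ρ₀ / 32 / (C + 1)) (by positivity))]
    with x hx1 hxε hg1 hg2 hxe hxC hm3 hm4 hc4 f ρ Z P b hρρ hf hL hP hPK hb hm2
  have hxr1 : (1 : ℝ) ≤ x := by exact_mod_cast hx1
  have hxr : (0 : ℝ) < x := by linarith
  have hρp : 0 < ρ := lt_of_lt_of_le hρ hρρ
  have hVρρ : V₀ * ρ₀ ≤ V₀ * ρ := mul_le_mul_of_nonneg_left hρρ hV0.le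
  have hT1 : (1 : ℝ) ≤ (x : ℝ) ^ τ := Real.one_le_rpow hxr1 hτ0.le
  have hT12 : (x : ℝ) ^ τ ≤ (x : ℝ) ^ s₁ := Real.rpow_le_rpow_of_exponent_le hxr1 (by linarith)
  have hT23 : (x : ℝ) ^ s₁ ≤ (x : ℝ) ^ s₂ := Real.rpow_le_rpow_of_exponent_le hxr1 hs12
  have hxs₁ : (x : ℝ) / (x : ℝ) ^ s₁ = (x : ℝ) ^ (1 - s₁) := by
    rw [Real.rpow_sub hxr, Real.rpow_one]
  have hx1' : ((x : ℝ) ^ θ + 1) * ((x : ℝ) ^ τ) ^ (r + 1) ≤ x / (x : ℝ) ^ s₁ - 1 := by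
    have g1 : (x : ℝ) ^ θ ≤ (x : ℝ) ^ ((1 - s₁) / 4) :=
      Real.rpow_le_rpow_of_exponent_le hxr1 (min_le_left _ _)
    have g2 : ((x : ℝ) ^ τ) ^ (r + 1) = ((x : ℝ) ^ ((1 - s₁) / 4)) ^ 2 := by
      rw [← Real.rpow_natCast, ← Real.rpow_mul hxr.le, ← Real.rpow_natCast, ← Real.rpow_mul hxr.le]
      congr 1
      rw [hτ]
      push_cast
      field_simp
      ring
    have g3 : (x : ℝ) / (x : ℝ) ^ s₁ = ((x : ℝ) ^ ((1 - s₁) / 4)) ^ 4 := by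
      rw [hxs₁, ← Real.rpow_natCast, ← Real.rpow_mul hxr.le]
      congr 1
      push_cast
      ring
    rw [g2, g3]
    generalize (x : ℝ) ^ ((1 - s₁) / 4) = g at *
    generalize (x : ℝ) ^ θ = w at *
    have g4 : (w + 1) * g ^ 2 ≤ (g + 1) * g ^ 2 :=
      mul_le_mul_of_nonneg_right (by linarith) (by positivity)
    have g5 : (g + 1) * g ^ 2 ≤ g ^ 4 - 1 := by
      have a1 : 2 * g ^ 3 ≤ g * g ^ 3 := mul_le_mul_of_nonneg_right hg1 (by positivity)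
      have a2 : 2 * g ^ 2 ≤ g * g ^ 2 := mul_le_mul_of_nonneg_right hg1 (by positivity)
      have a3 : 4 ≤ g ^ 2 := by nlinarith
      have e1 : g ^ 4 = g * g ^ 3 := by ring
      have e2 : g ^ 3 = g * g ^ 2 := by ring
      nlinarith
    linarith
  have hx3' : ((x : ℝ) ^ θ + 1) * (x : ℝ) ^ s₂ ≤ x := by
    have g1 : (x : ℝ) ^ θ ≤ (x : ℝ) ^ ((1 - s₂) / 2) :=
      Real.rpow_le_rpow_of_exponent_le hxr1 (min_le_right _ _)
    have g3 : (x : ℝ) = ((x : ℝ) ^ ((1 - s₂) / 2)) ^ 2 * (x : ℝ) ^ s₂ := by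
      rw [← Real.rpow_natCast, ← Real.rpow_mul hxr.le, ← Real.rpow_add hxr]
      have : (1 - s₂) / 2 * ((2 : ℕ) : ℝ) + s₂ = 1 := by
        push_cast
        ring
      rw [this, Real.rpow_one]
    have g4 : (x : ℝ) ^ θ + 1 ≤ ((x : ℝ) ^ ((1 - s₂) / 2)) ^ 2 := by
      generalize (x : ℝ) ^ ((1 - s₂) / 2) = g at *
      nlinarith
    calc ((x : ℝ) ^ θ + 1) * (x : ℝ) ^ s₂ ≤ ((x : ℝ) ^ ((1 - s₂) / 2)) ^ 2 * (x : ℝ) ^ s₂ :=
          mul_le_mul_of_nonneg_right g4 (by positivity)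
      _ = x := g3.symm
  have hbx : ((b + x : ℕ) : ℝ) ≤ (x : ℝ) ^ t₂ := by
    have g1 : ((b + x : ℕ) : ℝ) ≤ (C + 1) * x := by
      have : b + x ≤ (C + 1) * x := by
        rw [add_mul, one_mul]
        omega
      exact_mod_cast this
    have g2 : (x : ℝ) ^ t₂ = (x : ℝ) ^ (t₂ - 1) * x := by
      rw [Real.rpow_sub hxr, Real.rpow_one]
      field_simp
    rw [g2]
    exact g1.trans (mul_le_mul_of_nonneg_right hxC hxr.le)
  have m2 : ∑ p ∈ rg P ((x : ℝ) ^ τ) ((x : ℝ) ^ s₁), 1 / (p : ℝ) ≤ 1 / 2 := by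
    refine le_trans (sum_sub_le fun p hp => ?_) hm2
    obtain ⟨g1, g2, g3⟩ := mem_rg.1 hp
    rw [Finset.mem_sdiff, mem_lo]
    exact ⟨g1, fun h => by linarith [h.2]⟩
  have m3 : ∑ p ∈ rg P ((x : ℝ) ^ s₁) ((x : ℝ) ^ s₂), 1 / (p : ℝ) ≤ V₀ / 48 := by
    have := hm3 (rg P ((x : ℝ) ^ s₁) ((x : ℝ) ^ s₂)) (fun p hp => (hP p (mem_rg.1 hp).1).1)
      (fun p hp => ⟨(mem_rg.1 hp).2.1, (mem_rg.1 hp).2.2.trans
        (Real.rpow_le_rpow_of_exponent_le hxr1 hs₂1.le)⟩)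
    rw [hlog1] at this
    linarith
  have m4 : ∑ p ∈ rg P ((x : ℝ) ^ s₂) ((b + x : ℕ) : ℝ), 1 / (p : ℝ) ≤ V₀ / 32 * ρ := by
    have := hm4 (rg P ((x : ℝ) ^ s₂) ((b + x : ℕ) : ℝ)) (fun p hp => (hP p (mem_rg.1 hp).1).1)
      (fun p hp => ⟨(mem_rg.1 hp).2.1, (mem_rg.1 hp).2.2.trans hbx⟩)
    rw [hlog2] at this
    linarith
  have c4 : ((rg P ((x : ℝ) ^ s₂) ((b + x : ℕ) : ℝ)).card : ℝ) ≤ V₀ / 32 * ρ * x := by
    have := hc4 (rg P ((x : ℝ) ^ s₂) ((b + x : ℕ) : ℝ)) (fun p hp => (hP p (mem_rg.1 hp).1).1)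
      (fun p hp => by
        have g1 : (p : ℝ) ≤ ((b + x : ℕ) : ℝ) := (mem_rg.1 hp).2.2
        have g2 : p ≤ b + x := by exact_mod_cast g1
        have : b + x ≤ (C + 1) * x := by
          rw [add_mul, one_mul]
          omega
        omega)
    refine this.trans ?_
    have e : V₀ * ρ₀ / 32 / ((C : ℝ) + 1) * (((C + 1) * x : ℕ) : ℝ) = V₀ * ρ₀ / 32 * x := by
      push_cast
      field_simp
    rw [e]
    exact mul_le_mul_of_nonneg_right (by linarith) hxr.le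
  have key := case1 hL hf hρp hε0 hε1 hxε P hP hPK r ((x : ℝ) ^ τ) ((x : ℝ) ^ s₁) ((x : ℝ) ^ s₂)
    hT1 hT12 hT23 x b (V₀ / 16) (V₀ / 48) (V₀ / 32) (V₀ / 32) he (by positivity) (by linarith)
    hx1' (by rw [hxs₁]; exact hxe) hx3' m2 m3 m4 c4
  have hV : V₀ ≤ ∏ p ∈ lo P ((x : ℝ) ^ τ), (1 - 1 / (p : ℝ)) :=
    prod_ge _ (fun p hp => (hP p (mem_lo.1 hp).1).1)
      ((sum_sub_le fun p hp => (mem_lo.1 hp).1).trans hPK)
  refine le_trans ?_ key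
  have : V₀ / 4 * (ρ * x) ≤ ((∏ p ∈ lo P ((x : ℝ) ^ τ), (1 - 1 / (p : ℝ))) / 2 - 2 * (V₀ / 16) -
      3 * (V₀ / 48) - V₀ / 32 - V₀ / 32) * (ρ * x) :=
    mul_le_mul_of_nonneg_right (by linarith) (by positivity)
  linarith

end Pool.Agent.Lib.TC93
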