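import Pool.Agent.Lib.TC93.D3
import Pool.Agent.Lib.OC93.Main

set_option autoImplicit false

/-!
Density of the integers free of the primes of `P`: induction on the mass.
-/

namespace Pool.Agent.Lib.TC93

open Finset Filter Topology Pool.Agent.Lib.MP_ba437d_nt Pool.Agent.Lib.OC93

/-- the statement, for primes of mass at most `K` -/
def Cl (K : ℝ) : Prop :=
  ∃ δ ε : ℝ, 0 < δ ∧ 0 < ε ∧ ∀ ρ₀ : ℝ, 0 < ρ₀ → ρ₀ ≤ 1 → ∃ θ : ℝ, 0 < θ ∧ ∀ C : ℕ,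
    ∀ᶠ x : ℕ in atTop, ∀ (f : ℕ → ℝ) (ρ Z : ℝ) (P : Finset ℕ) (b : ℕ), ρ₀ ≤ ρ →
      (∀ n, 0 ≤ f n ∧ f n ≤ 1) → Z ≤ (x : ℝ) ^ θ → Lev f ρ Z ((x : ℝ) ^ θ) ε →
      (∀ p ∈ P, p.Prime ∧ Z < (p : ℝ)) → ∑ p ∈ P, 1 / (p : ℝ) ≤ K → b ≤ C * x →
      δ * ρ * x ≤ ∑ n ∈ Ioc b (b + x), f n * fr P n

/-- finite form -/
theorem case2 {f : ℕ → ℝ} {ρ δ' Tτ y : ℝ} (hf : ∀ n, 0 ≤ f n) (hρ : 0 < ρ) (hδ' : 0 < δ')
    (P : Finset ℕ) (hP : ∀ p ∈ P, p.Prime) (x b k C : ℕ) (hy2 : 2 ≤ y)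
    (hg0 : 1 / 2 ≤ ∑ q ∈ GG P y, 1 / (q : ℝ)) (hg1 : ∑ q ∈ GG P y, 1 / (q : ℝ) ≤ 1)
    (h8 : y ^ 8 ≤ x) (hk : ((C : ℝ) + 1) * x < y ^ (k + 1)) (hb : b ≤ C * x)
    (hT : ((C : ℝ) + 1) * y ^ 8 ≤ Tτ)
    (hloc : ∀ w ∈ win (GG P y) (y ^ 2) (x / y ^ 8),
      δ' * ρ * (((b + x) / w - b / w : ℕ) : ℝ) ≤
        ∑ r ∈ Ioc (b / w) ((b + x) / w), f (w * r) * fr (lo P Tτ) r) :
    δ' * ρ * x / 2 * ((1 / 2 : ℝ) / 2 ^ k) ^ (k + 1) ≤
      2 ^ k * ∑ n ∈ Ioc b (b + x), f n * fr P n := by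
  classical
  have hy0 : 0 < y := by linarith
  have hy1 : 1 ≤ y := by linarith
  have hxr : (0 : ℝ) < x := lt_of_lt_of_le (by positivity) h8
  have hG : ∀ q ∈ GG P y, q.Prime ∧ y < (q : ℝ) ∧ (q : ℝ) ≤ y ^ 2 := fun q hq => by
    obtain ⟨h1, h2, h3, _⟩ := mem_GG hy0.le hq
    exact ⟨h1, h2, h3⟩
  have hbx : (b : ℝ) + x ≤ (C + 1) * x := by
    have : (b : ℝ) ≤ C * x := by exact_mod_cast hb
    linarith
  have hxk : (x : ℝ) < y ^ (k + 1) := by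
    refine lt_of_le_of_lt ?_ hk
    have : (0 : ℝ) ≤ C * x := by positivity
    linarith
  have hwm := win_mass x y k (GG P y) hy2 hG h8 hxk hg0 hg1
  have hW : ∀ w ∈ win (GG P y) (y ^ 2) (x / y ^ 8), 0 < w ∧ (x : ℝ) / y ^ 8 < w ∧
      (w : ℝ) ≤ x / y ^ 6 ∧ w.primeFactors ⊆ GG P y := by
    intro w hw
    rw [mem_win (by positivity)] at hw
    obtain ⟨h1, h2, h3, h4⟩ := hw
    refine ⟨h1, h2, ?_, h4⟩
    have e : (x : ℝ) / y ^ 8 * y ^ 2 = x / y ^ 6 := by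
      field_simp
    rw [← e]
    exact h3
  -- each w
  have h1 : ∀ w ∈ win (GG P y) (y ^ 2) (x / y ^ 8), δ' * ρ * x / 2 * (1 / (w : ℝ)) ≤
      ∑ n ∈ Ioc b (b + x), (if w ∣ n then f n * fr P n else 0) := by
    intro w hw
    obtain ⟨hw0, hw1, hw2, hw3⟩ := hW w hw
    have hwr : (0 : ℝ) < w := by exact_mod_cast hw0
    have hPw : ∀ p ∈ P, ¬ p ∣ w := by
      intro p hp hpw
      have h2 : p ∈ GG P y := hw3 (Nat.mem_primeFactors.2 ⟨hP p hp, hpw, hw0.ne'⟩)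
      exact (mem_GG hy0.le h2).2.2.2 hp
    rw [sum_dvd b (b + x) w hw0 (fun n => f n * fr P n)]
    have h2 : ∑ r ∈ Ioc (b / w) ((b + x) / w), f (w * r) * fr (lo P Tτ) r =
        ∑ r ∈ Ioc (b / w) ((b + x) / w), f (w * r) * fr P (w * r) := by
      refine sum_congr rfl fun r hr => ?_
      rw [mem_Ioc] at hr
      rw [fr_mul P hP w r hPw]
      congr 1
      have hr0 : 0 < r := lt_of_le_of_lt (Nat.zero_le _) hr.1
      have hrT : (r : ℝ) ≤ Tτ := by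
        have g1 : r * w ≤ b + x := by
          have := hr.2
          rwa [Nat.le_div_iff_mul_le hw0] at this
        have g2 : (r : ℝ) * w ≤ b + x := by exact_mod_cast g1
        have g3 : (x : ℝ) < w * y ^ 8 := by
          rw [div_lt_iff₀ (by positivity)] at hw1
          exact hw1
        have g4 : (r : ℝ) * w ≤ ((C + 1) * y ^ 8) * w := by
          have : ((C : ℝ) + 1) * x ≤ (C + 1) * (w * y ^ 8) :=
            mul_le_mul_of_nonneg_left g3.le (by positivity)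
          linarith
        exact (le_of_mul_le_mul_right g4 hwr).trans hT
      unfold fr
      have : (∀ p ∈ lo P Tτ, ¬ p ∣ r) ↔ (∀ p ∈ P, ¬ p ∣ r) := by
        constructor
        · intro h p hp hpr
          have g1 : (p : ℝ) ≤ r := by exact_mod_cast Nat.le_of_dvd hr0 hpr
          exact h p (mem_lo.2 ⟨hp, by linarith⟩) hpr
        · intro h p hp
          exact h p (mem_lo.1 hp).1
      simp only [this]
    have h3 := hloc w hw
    rw [h2] at h3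
    refine le_trans ?_ h3
    have h4 := (div_len b (b + x) w hw0).1
    have hle : b / w ≤ (b + x) / w := Nat.div_le_div_right (Nat.le_add_right _ _)
    rw [← Nat.cast_sub hle] at h4
    have e1 : ((b + x : ℕ) : ℝ) - b = x := by push_cast; ring
    rw [e1] at h4
    have h5 : 2 ≤ (x : ℝ) / w := by
      rw [le_div_iff₀ hwr]
      rw [le_div_iff₀ (by positivity)] at hw2
      have h6 : 2 ≤ y ^ 6 := by
        calc (2 : ℝ) ≤ y := hy2
          _ = y ^ 1 := (pow_one y).symm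
          _ ≤ y ^ 6 := pow_le_pow_right₀ hy1 (by norm_num)
      nlinarith
    have h6 : x / w / 2 ≤ (((b + x) / w - b / w : ℕ) : ℝ) := by linarith
    have h7 : 0 < δ' * ρ := mul_pos hδ' hρ
    calc δ' * ρ * x / 2 * (1 / (w : ℝ)) = δ' * ρ * (x / w / 2) := by ring
      _ ≤ _ := mul_le_mul_of_nonneg_left h6 h7.le
  have h2 := sum_le_sum h1
  rw [← mul_sum, sum_comm] at h2
  have h3 : ∑ n ∈ Ioc b (b + x), ∑ w ∈ win (GG P y) (y ^ 2) (x / y ^ 8),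
      (if w ∣ n then f n * fr P n else 0) ≤ ∑ n ∈ Ioc b (b + x), 2 ^ k * (f n * fr P n) := by
    refine sum_le_sum fun n hn => ?_
    rw [mem_Ioc] at hn
    have hn0 : 0 < n := by omega
    have hnk : (n : ℝ) < y ^ (k + 1) := by
      have : (n : ℝ) ≤ b + x := by exact_mod_cast hn.2
      linarith
    have h4 := al_le (GG P y) (win (GG P y) (y ^ 2) (x / y ^ 8)) y k hy1
      (fun q hq => ⟨(hG q hq).1, (hG q hq).2.1.le⟩) (fun w hw => ⟨(hW w hw).1, (hW w hw).2.2.2⟩)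
      n hn0 hnk
    rw [← sum_filter, sum_const, nsmul_eq_mul]
    exact mul_le_mul_of_nonneg_right h4 (mul_nonneg (hf n) (fr_nonneg P n))
  rw [← mul_sum] at h3
  refine le_trans ?_ (h2.trans h3)
  exact mul_le_mul_of_nonneg_left hwm (by positivity)

end Pool.Agent.Lib.TC93
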