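import Pool.Agent.Lib.TC93.D4

set_option autoImplicit false

/-!
Density of the integers free of the primes of `P`: induction on the mass.
-/

namespace Pool.Agent.Lib.TC93

open Finset Filter Topology Pool.Agent.Lib.MP_ba437d_nt Pool.Agent.Lib.OC93

/-- the step of the induction -/
theorem cl2 (K τ K' : ℝ) (hτ0 : 0 < τ) (hτ1 : τ < 1) (h : Cl K') :
    ∃ δ ε : ℝ, 0 < δ ∧ 0 < ε ∧ ∀ ρ₀ : ℝ, 0 < ρ₀ → ρ₀ ≤ 1 → ∃ θ : ℝ, 0 < θ ∧ ∀ C : ℕ,
      ∀ᶠ x : ℕ in atTop, ∀ (f : ℕ → ℝ) (ρ Z : ℝ) (P : Finset ℕ) (b : ℕ), ρ₀ ≤ ρ →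
        (∀ n, 0 ≤ f n ∧ f n ≤ 1) → Z ≤ (x : ℝ) ^ θ → Lev f ρ Z ((x : ℝ) ^ θ) ε →
        (∀ p ∈ P, p.Prime ∧ Z < (p : ℝ)) → ∑ p ∈ P, 1 / (p : ℝ) ≤ K → b ≤ C * x →
        ∑ p ∈ lo P ((x : ℝ) ^ τ), 1 / (p : ℝ) ≤ K' →
        δ * ρ * x ≤ ∑ n ∈ Ioc b (b + x), f n * fr P n := by
  obtain ⟨δ', ε', hδ', hε', h⟩ := h
  obtain ⟨YM, hYM⟩ := GG_mass
  obtain ⟨J, hJ⟩ := exists_nat_gt (10 * K)
  set t : ℕ → ℝ := fun j => τ / 10 / 2 ^ j with ht
  have ht0 : ∀ j, 0 < t j := fun j => by simp only [ht]; positivity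
  have htanti : Antitone t := by
    intro i j hij
    simp only [ht]
    exact div_le_div_of_nonneg_left (by positivity) (by positivity)
      (pow_le_pow_right₀ (by norm_num) hij)
  have htstep : ∀ j, t j = t (j + 1) * ((2 : ℕ) : ℝ) := by
    intro j
    simp only [ht]
    rw [pow_succ]
    push_cast
    field_simp
  have htJ := ht0 J
  obtain ⟨k, hk⟩ : ∃ k : ℕ, 2 ≤ t J * (k + 1) := by
    obtain ⟨k, hk⟩ := exists_nat_gt (2 / t J)
    refine ⟨k, ?_⟩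
    rw [div_lt_iff₀ htJ] at hk
    linarith [mul_comm (k : ℝ) (t J)]
  refine ⟨δ' / 2 * ((1 / 2 : ℝ) / 2 ^ k) ^ (k + 1) / 2 ^ k, min ε' 1, by positivity,
    lt_min hε' one_pos, fun ρ₀ hρ₀ hρ1 => ?_⟩
  obtain ⟨θ', hθ', h⟩ := h ρ₀ hρ₀ hρ1
  refine ⟨min (t J) (5 * t J * θ'), lt_min htJ (by positivity), fun C => ?_⟩
  obtain ⟨X₁, hX₁⟩ := eventually_atTop.1 (h (2 * C))
  filter_upwards [eventually_ge_atTop 1, pow_big (t J) htJ X₁, pow_big (t J) htJ 2,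
    pow_big (t J) htJ YM, pow_big (6 / 10 * τ) (by positivity) (C + 1),
    eventually_ge_atTop (C + 2)]
    with x hx1 hxX hy2' hxY hxC hxC2 f ρ Z P b hρρ hf hZ hL hP hPK hb hlo
  have hρ : 0 < ρ := lt_of_lt_of_le hρ₀ hρρ
  have hxr1 : (1 : ℝ) ≤ x := by exact_mod_cast hx1
  have hxr : (0 : ℝ) < x := by linarith
  have hxC2' : (C : ℝ) + 2 ≤ x := by exact_mod_cast hxC2
  obtain ⟨j, hj, hjm⟩ := exists_scale P (fun j => (x : ℝ) ^ t j) (by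
    intro i j hij
    exact Real.rpow_le_rpow_of_exponent_le hxr1 (htanti hij)) K (1 / 10) hPK J (by linarith)
  rw [mem_range] at hj
  set y : ℝ := (x : ℝ) ^ t (j + 1) with hy
  have htj : t J ≤ t (j + 1) := htanti (by omega)
  have htj1 : t (j + 1) ≤ τ / 20 := by
    have : t (j + 1) ≤ t 1 := htanti (by omega)
    have e : t 1 = τ / 20 := by
      simp only [ht]
      ring
    linarith
  have hyJ : (x : ℝ) ^ t J ≤ y := Real.rpow_le_rpow_of_exponent_le hxr1 htj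
  have hy2 : 2 ≤ y := hy2'.trans hyJ
  have hy0 : 0 < y := by linarith
  have hy1 : 1 ≤ y := by linarith
  have hysq : (x : ℝ) ^ t j = y ^ 2 := by
    rw [hy, ← Real.rpow_natCast, ← Real.rpow_mul hxr.le, ← htstep j]
  rw [hysq] at hjm
  have hsub : Pool.Agent.Lib.MP_973905_nt.PS y (y ^ 2) ∩ P ⊆ fT P y (y ^ 2) := by
    intro q hq
    rw [mem_inter] at hq
    obtain ⟨h1, h2, h3⟩ := mem_PS hy0.le (by positivity) hq.1
    exact mem_fT.2 ⟨hq.2, h2, h3⟩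
  obtain ⟨hg0, hg1⟩ := hYM y (hxY.trans hyJ) P (1 / 10) (le_trans
    (sum_le_sum_of_subset_of_nonneg hsub fun _ _ _ => by positivity) hjm) le_rfl
  have hy8 : y ^ 8 ≤ (x : ℝ) ^ (4 / 10 * τ) := by
    rw [hy, ← Real.rpow_natCast, ← Real.rpow_mul hxr.le]
    apply Real.rpow_le_rpow_of_exponent_le hxr1
    push_cast
    linarith
  have h8 : y ^ 8 ≤ x := by
    refine hy8.trans ?_
    calc (x : ℝ) ^ (4 / 10 * τ) ≤ (x : ℝ) ^ (1 : ℝ) :=
          Real.rpow_le_rpow_of_exponent_le hxr1 (by linarith)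
      _ = x := Real.rpow_one _
  have hyk : (x : ℝ) ^ 2 ≤ y ^ (k + 1) := by
    rw [hy, ← Real.rpow_natCast, ← Real.rpow_natCast, ← Real.rpow_mul hxr.le]
    apply Real.rpow_le_rpow_of_exponent_le hxr1
    push_cast
    have : t J * (k + 1) ≤ t (j + 1) * (k + 1) := mul_le_mul_of_nonneg_right htj (by positivity)
    linarith
  have hk' : ((C : ℝ) + 1) * x < y ^ (k + 1) := by
    refine lt_of_lt_of_le ?_ hyk
    rw [sq]
    exact mul_lt_mul_of_pos_right (by linarith) hxr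
  have hT : ((C : ℝ) + 1) * y ^ 8 ≤ (x : ℝ) ^ τ := by
    calc ((C : ℝ) + 1) * y ^ 8 ≤ (x : ℝ) ^ (6 / 10 * τ) * (x : ℝ) ^ (4 / 10 * τ) :=
          mul_le_mul hxC hy8 (by positivity) (by positivity)
      _ = (x : ℝ) ^ τ := by
          rw [← Real.rpow_add hxr]
          congr 1
          ring
  have hZy : Z ≤ y := hZ.trans ((Real.rpow_le_rpow_of_exponent_le hxr1 (min_le_left _ _)).trans hyJ)
  have hloc : ∀ w ∈ win (GG P y) (y ^ 2) (x / y ^ 8),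
      δ' * ρ * (((b + x) / w - b / w : ℕ) : ℝ) ≤
        ∑ r ∈ Ioc (b / w) ((b + x) / w), f (w * r) * fr (lo P ((x : ℝ) ^ τ)) r := by
    intro w hw
    rw [mem_win (by positivity)] at hw
    obtain ⟨hw0, hw1, hw2, hw3⟩ := hw
    have hwr : (0 : ℝ) < w := by exact_mod_cast hw0
    have e0 : (x : ℝ) / y ^ 8 * y ^ 2 = x / y ^ 6 := by
      field_simp
    rw [e0] at hw2
    have hwrough : rough Z w := by
      refine ⟨hw0, fun p hp hpw => ?_⟩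
      have h2 : p ∈ GG P y := hw3 (Nat.mem_primeFactors.2 ⟨hp, hpw, hw0.ne'⟩)
      exact lt_of_le_of_lt hZy (mem_GG hy0.le h2).2.1
    have hle : b / w ≤ (b + x) / w := Nat.div_le_div_right (Nat.le_add_right _ _)
    set x'' : ℕ := (b + x) / w - b / w with hx''
    have h4 := (div_len b (b + x) w hw0).1
    rw [← Nat.cast_sub hle, ← hx''] at h4
    have e1 : ((b + x : ℕ) : ℝ) - b = x := by push_cast; ring
    rw [e1] at h4
    have h6 : y ^ 6 ≤ (x : ℝ) / w := by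
      rw [le_div_iff₀ hwr]
      rw [le_div_iff₀ (by positivity)] at hw2
      linarith
    have h7 : y ^ 5 ≤ (x'' : ℝ) := by
      have g1 : 1 ≤ y ^ 5 := one_le_pow₀ hy1
      have g2 : y ^ 6 = y * y ^ 5 := by ring
      have g3 : 2 * y ^ 5 ≤ y * y ^ 5 := mul_le_mul_of_nonneg_right hy2 (by positivity)
      linarith
    have h8' : y ≤ (x'' : ℝ) := by
      refine le_trans ?_ h7
      calc y = y ^ 1 := (pow_one y).symm
        _ ≤ y ^ 5 := pow_le_pow_right₀ hy1 (by norm_num)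
    have h9 : X₁ ≤ x'' := by
      have : (X₁ : ℝ) ≤ x'' := hxX.trans (hyJ.trans h8')
      exact_mod_cast this
    have h10 : (x : ℝ) ^ min (t J) (5 * t J * θ') ≤ (x'' : ℝ) ^ θ' := by
      have g1 : (x : ℝ) ^ (5 * t J) ≤ (x'' : ℝ) := by
        refine le_trans ?_ h7
        rw [hy, ← Real.rpow_natCast, ← Real.rpow_mul hxr.le]
        apply Real.rpow_le_rpow_of_exponent_le hxr1
        push_cast
        linarith
      calc (x : ℝ) ^ min (t J) (5 * t J * θ') ≤ (x : ℝ) ^ (5 * t J * θ') :=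
            Real.rpow_le_rpow_of_exponent_le hxr1 (min_le_right _ _)
        _ = ((x : ℝ) ^ (5 * t J)) ^ θ' := by rw [Real.rpow_mul hxr.le]
        _ ≤ (x'' : ℝ) ^ θ' := Real.rpow_le_rpow (by positivity) g1 hθ'.le
    have h11 : b / w ≤ 2 * C * x'' := by
      have g1 : ((b / w : ℕ) : ℝ) ≤ (b : ℝ) / w := Nat.cast_div_le
      have g2 : (b : ℝ) / w ≤ C * (x / w) := by
        rw [← mul_div_assoc]
        apply div_le_div_of_nonneg_right _ hwr.le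
        exact_mod_cast hb
      have g3 : (x : ℝ) / w ≤ 2 * x'' := by
        have : 2 ≤ y ^ 5 := by
          calc (2 : ℝ) ≤ y := hy2
            _ = y ^ 1 := (pow_one y).symm
            _ ≤ y ^ 5 := pow_le_pow_right₀ hy1 (by norm_num)
        linarith
      have g4 : ((b / w : ℕ) : ℝ) ≤ ((2 * C * x'' : ℕ) : ℝ) := by
        push_cast
        have : (C : ℝ) * (x / w) ≤ C * (2 * x'') := mul_le_mul_of_nonneg_left g3 (by positivity)
        linarith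
      exact_mod_cast g4
    have h12 : (b + x) / w = b / w + x'' := by omega
    have h13 := hX₁ x'' h9 (fun r => f (w * r)) ρ Z (lo P ((x : ℝ) ^ τ)) (b / w) hρρ
      (fun n => hf (w * n)) (hZ.trans h10)
      ((hL.dil hwrough).mono (by positivity) h10 (min_le_left _ _) hρ.le)
      (fun p hp => hP p (mem_lo.1 hp).1) hlo h11
    rw [h12]
    exact h13
  have key := case2 (fun n => (hf n).1) hρ hδ' P (fun p hp => (hP p hp).1) x b k C hy2 hg0 hg1 h8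
    hk' hb hT hloc
  have h2k : (0 : ℝ) < 2 ^ k := by positivity
  rw [← div_le_iff₀' h2k] at key
  refine le_trans (le_of_eq ?_) key
  ring

theorem Cl_zero {K : ℝ} (hK : 0 ≤ K) (hK1 : K ≤ 1 / 2) : Cl K := by
  obtain ⟨τ, _, _, δ, ε, hδ, hε, h⟩ := cl1 K hK
  refine ⟨δ, ε, hδ, hε, fun ρ₀ hρ hρ1 => ?_⟩
  obtain ⟨θ, hθ, h⟩ := h ρ₀ hρ hρ1
  refine ⟨θ, hθ, fun C => ?_⟩
  filter_upwards [h C] with x hx f ρ Z P b hρρ hf hZ hL hP hPK hb
  exact hx f ρ Z P b hρρ hf hL hP hPK hb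
    (((sum_sub_le sdiff_subset).trans hPK).trans hK1)

theorem Cl_step {K : ℝ} (hK : 0 ≤ K) (h : Cl K) : Cl (K + 1 / 2) := by
  obtain ⟨τ, hτ0, hτ1, δ₁, ε₁, hδ₁, hε₁, h₁⟩ := cl1 (K + 1 / 2) (by linarith)
  obtain ⟨δ₂, ε₂, hδ₂, hε₂, h₂⟩ := cl2 (K + 1 / 2) τ K hτ0 hτ1 h
  refine ⟨min δ₁ δ₂, min ε₁ ε₂, lt_min hδ₁ hδ₂, lt_min hε₁ hε₂, fun ρ₀ hρ₀ hρ1 => ?_⟩
  obtain ⟨θ₁, hθ₁, h₁⟩ := h₁ ρ₀ hρ₀ hρ1
  obtain ⟨θ₂, hθ₂, h₂⟩ := h₂ ρ₀ hρ₀ hρ1
  refine ⟨min θ₁ θ₂, lt_min hθ₁ hθ₂, fun C => ?_⟩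
  filter_upwards [h₁ C, h₂ C, eventually_ge_atTop 1] with x hx₁ hx₂ hx1 f ρ Z P b hρρ hf hZ hL hP hPK hb
  have hρ : 0 < ρ := lt_of_lt_of_le hρ₀ hρρ
  have hxr1 : (1 : ℝ) ≤ x := by exact_mod_cast hx1
  have e1 : (x : ℝ) ^ min θ₁ θ₂ ≤ (x : ℝ) ^ θ₁ :=
    Real.rpow_le_rpow_of_exponent_le hxr1 (min_le_left _ _)
  have e2 : (x : ℝ) ^ min θ₁ θ₂ ≤ (x : ℝ) ^ θ₂ :=
    Real.rpow_le_rpow_of_exponent_le hxr1 (min_le_right _ _)
  have hρx : 0 ≤ ρ * x := by positivity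
  rcases le_or_gt (∑ p ∈ P \ lo P ((x : ℝ) ^ τ), 1 / (p : ℝ)) (1 / 2) with hm | hm
  · have := hx₁ f ρ Z P b hρρ hf (hL.mono (by positivity) e1 (min_le_left _ _) hρ.le) hP hPK hb hm
    refine le_trans ?_ this
    have : min δ₁ δ₂ * (ρ * x) ≤ δ₁ * (ρ * x) := mul_le_mul_of_nonneg_right (min_le_left _ _) hρx
    linarith
  · have hlo : ∑ p ∈ lo P ((x : ℝ) ^ τ), 1 / (p : ℝ) ≤ K := by
      have e3 : lo P ((x : ℝ) ^ τ) ⊆ P := fun p hp => (mem_lo.1 hp).1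
      have := sum_sdiff (f := fun p : ℕ => 1 / (p : ℝ)) e3
      linarith
    have := hx₂ f ρ Z P b hρρ hf (hZ.trans e2) (hL.mono (by positivity) e2 (min_le_right _ _) hρ.le)
      hP hPK hb hlo
    refine le_trans ?_ this
    have : min δ₁ δ₂ * (ρ * x) ≤ δ₂ * (ρ * x) := mul_le_mul_of_nonneg_right (min_le_right _ _) hρx
    linarith

theorem Cl_mono {K K' : ℝ} (hKK : K ≤ K') (h : Cl K') : Cl K := by
  obtain ⟨δ, ε, hδ, hε, h⟩ := h
  refine ⟨δ, ε, hδ, hε, fun ρ₀ hρ hρ1 => ?_⟩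
  obtain ⟨θ, hθ, h⟩ := h ρ₀ hρ hρ1
  refine ⟨θ, hθ, fun C => ?_⟩
  filter_upwards [h C] with x hx f ρ Z P b hρρ hf hZ hL hP hPK hb
  exact hx f ρ Z P b hρρ hf hZ hL hP (hPK.trans hKK) hb

theorem Cl_nat (n : ℕ) : Cl ((n : ℝ) / 2) := by
  induction n with
  | zero => exact Cl_zero (by norm_num) (by norm_num)
  | succ n ih =>
    have := Cl_step (by positivity) ih
    have e : ((n + 1 : ℕ) : ℝ) / 2 = (n : ℝ) / 2 + 1 / 2 := by
      push_cast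
      ring
    rw [e]
    exact this

/-- The density bound, for all `K`. -/
theorem Cl_all (K : ℝ) : Cl K := by
  obtain ⟨n, hn⟩ := exists_nat_gt (2 * K)
  exact Cl_mono (by linarith) (Cl_nat n)

end Pool.Agent.Lib.TC93
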