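import Pool.Agent.Lib.MP_ba437d_nt.Sieve

set_option autoImplicit false

/-!
Elementary symmetric sums of weights, truncated inclusion-exclusion.
-/

namespace Pool.Agent.Lib.TC93

open Finset Pool.Agent.Lib.MP_ba437d_nt

/-- elementary symmetric sums of the weights `w` -/
noncomputable def es (w : ℕ → ℝ) (j : ℕ) (P : Finset ℕ) : ℝ :=
  ∑ D ∈ powersetCard j P, ∏ p ∈ D, w p

section

variable {w : ℕ → ℝ}

theorem es_nonneg (hw : ∀ p, 0 ≤ w p) (j : ℕ) (P : Finset ℕ) : 0 ≤ es w j P :=
  sum_nonneg fun _ _ => prod_nonneg fun p _ => hw p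

theorem es_succ_insert (j : ℕ) (P : Finset ℕ) (q : ℕ) (hq : q ∉ P) :
    es w (j + 1) (insert q P) = es w (j + 1) P + w q * es w j P := by
  unfold es
  rw [powersetCard_succ_insert hq, sum_union, sum_image, mul_sum]
  · congr 1
    apply sum_congr rfl
    intro D hD
    rw [mem_powersetCard] at hD
    rw [prod_insert (fun h => hq (hD.1 h))]
  · intro D hD D' hD' h
    simp only [mem_coe, mem_powersetCard] at hD hD'
    rw [← erase_insert (fun h => hq (hD.1 h)), ← erase_insert (fun h => hq (hD'.1 h)), h]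
  · rw [disjoint_left]
    intro D hD hD'
    rw [mem_image] at hD'
    obtain ⟨D', _, rfl⟩ := hD'
    rw [mem_powersetCard] at hD
    exact hq (hD.1 (mem_insert_self _ _))

theorem es_le (hw : ∀ p, 0 ≤ w p) (j : ℕ) (P : Finset ℕ) :
    es w j P ≤ (∑ p ∈ P, w p) ^ j / (j.factorial : ℝ) := by
  classical
  induction P using Finset.induction generalizing j with
  | empty =>
    cases j with
    | zero => simp [es]
    | succ j =>
      unfold es
      rw [powersetCard_eq_empty.2 (by simp), sum_empty]
      positivity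
  | insert q P hq ih =>
    cases j with
    | zero => simp [es]
    | succ j =>
      rw [es_succ_insert j P q hq, sum_insert hq]
      set s := ∑ p ∈ P, w p with hs
      have hs0 : 0 ≤ s := sum_nonneg fun p _ => hw p
      set t := w q with ht
      have ht0 : 0 ≤ t := hw q
      have h1 := ih (j + 1)
      have h2 := mul_le_mul_of_nonneg_left (ih j) ht0
      have h3 : s ^ (j + 1) + ((j : ℝ) + 1) * (t * s ^ j) ≤ (t + s) ^ (j + 1) := by
        rcases hs0.eq_or_lt with h | h
        · rw [← h]
          rcases Nat.eq_zero_or_pos j with rfl | hj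
          · simp
          · rw [zero_pow (by omega), zero_pow (by omega)]
            simp only [mul_zero, add_zero]
            positivity
        · have hb := one_add_mul_le_pow (show (-2 : ℝ) ≤ t / s by
            have : 0 ≤ t / s := by positivity
            linarith) (j + 1)
          have e : (t + s) ^ (j + 1) = s ^ (j + 1) * (1 + t / s) ^ (j + 1) := by
            rw [← mul_pow]; congr 1; field_simp; ring
          rw [e]
          have := mul_le_mul_of_nonneg_left hb (pow_nonneg hs0 (j + 1))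
          refine le_trans (le_of_eq ?_) this
          push_cast
          rw [pow_succ]
          field_simp
      have hf : ((j + 1).factorial : ℝ) = ((j : ℝ) + 1) * (j.factorial : ℝ) := by
        rw [Nat.factorial_succ]; push_cast; ring
      have hj0 : (0 : ℝ) < (j.factorial : ℝ) := by exact_mod_cast j.factorial_pos
      calc es w (j + 1) P + t * es w j P ≤ s ^ (j + 1) / ((j + 1).factorial : ℝ) +
            t * (s ^ j / (j.factorial : ℝ)) := add_le_add h1 h2
        _ = (s ^ (j + 1) + ((j : ℝ) + 1) * (t * s ^ j)) / ((j + 1).factorial : ℝ) := by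
          rw [hf]; field_simp
        _ ≤ _ := div_le_div_of_nonneg_right h3 (by positivity)

theorem es_sum (P : Finset ℕ) :
    ∑ j ∈ range (P.card + 1), (-1 : ℝ) ^ j * es w j P = ∏ p ∈ P, (1 - w p) := by
  classical
  have h := prod_add (fun p : ℕ => -(w p)) (fun _ => (1 : ℝ)) P
  have e : ∏ p ∈ P, (1 - w p) = ∏ p ∈ P, (-(w p) + 1) :=
    prod_congr rfl fun p _ => by ring
  rw [e, h, sum_powerset]
  apply sum_congr rfl
  intro j _
  unfold es
  rw [mul_sum]
  apply sum_congr rfl
  intro D hD
  rw [mem_powersetCard] at hD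
  rw [prod_const_one, mul_one, prod_neg, hD.2]

theorem es_trunc (hw : ∀ p, 0 ≤ w p) (P : Finset ℕ) {K : ℝ} (hK : ∑ p ∈ P, w p ≤ K) (r : ℕ) :
    |∑ j ∈ range (r + 1), (-1 : ℝ) ^ j * es w j P - ∏ p ∈ P, (1 - w p)| ≤ tau K r := by
  have hK0 : 0 ≤ K := le_trans (sum_nonneg fun p _ => hw p) hK
  have hEle : ∀ j, es w j P ≤ K ^ j / (j.factorial : ℝ) := fun j =>
    (es_le hw j P).trans (div_le_div_of_nonneg_right
      (pow_le_pow_left₀ (sum_nonneg fun p _ => hw p) hK j) (by positivity))
  rw [← es_sum P]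
  rcases le_total (r + 1) (P.card + 1) with h | h
  · have e : range (P.card + 1) = range (r + 1) ∪ Ico (r + 1) (P.card + 1) := by
      ext j; simp only [mem_range, mem_union, mem_Ico]; omega
    have hd : Disjoint (range (r + 1)) (Ico (r + 1) (P.card + 1)) := by
      rw [disjoint_left]; intro j hj hj'
      rw [mem_range] at hj; rw [mem_Ico] at hj'; omega
    rw [e, sum_union hd, sub_add_cancel_left, abs_neg]
    refine (abs_sum_le_sum_abs _ _).trans ?_
    refine le_trans (sum_le_sum fun j _ => ?_) (tau_bound hK0 r (Ico (r + 1) (P.card + 1))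
      (fun j hj => (mem_Ico.1 hj).1))
    rw [abs_mul, abs_pow, abs_neg, abs_one, one_pow, one_mul, abs_of_nonneg (es_nonneg hw j P)]
    exact hEle j
  · have e : ∑ j ∈ range (r + 1), (-1 : ℝ) ^ j * es w j P =
        ∑ j ∈ range (P.card + 1), (-1 : ℝ) ^ j * es w j P := by
      symm
      apply sum_subset
      · intro j hj; rw [mem_range] at *; omega
      · intro j _ hj
        rw [mem_range] at hj
        have : es w j P = 0 := by
          unfold es
          rw [powersetCard_eq_empty.2 (by omega), sum_empty]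
        rw [this, mul_zero]
    rw [e, sub_self, abs_zero]
    exact tau_nonneg hK0 r

theorem es_tail (hw : ∀ p, 0 ≤ w p) (P : Finset ℕ) {K : ℝ} (hK : ∑ p ∈ P, w p ≤ K) (r : ℕ) :
    es w (r + 1) P ≤ tau K r := by
  have hK0 : 0 ≤ K := le_trans (sum_nonneg fun p _ => hw p) hK
  refine ((es_le hw (r + 1) P).trans (div_le_div_of_nonneg_right
    (pow_le_pow_left₀ (sum_nonneg fun p _ => hw p) hK (r + 1)) (by positivity))).trans ?_
  have := tau_bound hK0 r {r + 1} (by simp)
  simpa using this

theorem prod_ge_w (hw : ∀ p, 0 ≤ w p) (P : Finset ℕ) (h2 : ∀ p ∈ P, w p ≤ 1 / 2) {K : ℝ}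
    (hK : ∑ p ∈ P, w p ≤ K) :
    Real.exp (-(Real.log 4 * K)) ≤ ∏ p ∈ P, (1 - w p) := by
  have h4 : 0 ≤ Real.log 4 := Real.log_nonneg (by norm_num)
  calc Real.exp (-(Real.log 4 * K)) ≤ Real.exp (∑ p ∈ P, -(Real.log 4 * w p)) := by
        apply Real.exp_le_exp.2
        rw [sum_neg_distrib, ← mul_sum]
        have := mul_le_mul_of_nonneg_left hK h4
        linarith
    _ = ∏ p ∈ P, Real.exp (-(Real.log 4 * w p)) := Real.exp_sum _ _
    _ ≤ _ := prod_le_prod (fun _ _ => (Real.exp_pos _).le) fun p hp => one_sub_ge _ (hw p) (h2 p hp)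

theorem prod_le_one_w (hw : ∀ p, 0 ≤ w p) (P : Finset ℕ) (h2 : ∀ p ∈ P, w p ≤ 1 / 2) :
    ∏ p ∈ P, (1 - w p) ≤ 1 :=
  prod_le_one (fun p hp => by linarith [h2 p hp]) fun p _ => by linarith [hw p]

end

end Pool.Agent.Lib.TC93
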