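import Pool.Agent.Lib.TC93.E1

set_option autoImplicit false

/-!
The sieve by several residue classes modulo each prime, along arithmetic progressions.
-/

namespace Pool.Agent.Lib.TC93

open Finset Pool.Agent.Lib.MP_ba437d_nt

/-- the `k` in the classes `a` modulo the primes of `D` for which `M₁ + m k` lies in one of the
classes of `B p` for all `p ∈ Q` -/
def cB (B : ℕ → Finset ℤ) (M₁ m : ℤ) (X : ℕ) (a : ℕ → ℤ) (D Q : Finset ℕ) : Finset ℕ :=
  (cl X a D).filter (fun k : ℕ => ∀ p ∈ Q, (M₁ + m * (k : ℤ)) % (p : ℤ) ∈ B p)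

theorem solve (q : ℕ) (hq : q.Prime) (M₁ m : ℤ) (hm : ¬ (q : ℤ) ∣ m) (β : ℤ) (h0 : 0 ≤ β)
    (h1 : β < q) :
    ∃ β' : ℤ, ∀ k : ℕ, (M₁ + m * (k : ℤ)) % (q : ℤ) = β ↔ (k : ℤ) ≡ β' [ZMOD (q : ℤ)] := by
  have hpi : Prime (q : ℤ) := Nat.prime_iff_prime_int.1 hq
  have hco : IsCoprime (q : ℤ) m := (hpi.coprime_iff_not_dvd).2 hm
  obtain ⟨x, y, hxy⟩ := hco
  have hβ : β % (q : ℤ) = β := Int.emod_eq_of_lt h0 h1
  have hyu : y * m ≡ 1 [ZMOD (q : ℤ)] := by
    rw [Int.modEq_iff_dvd]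
    exact ⟨x, by linear_combination (-1 : ℤ) * hxy⟩
  refine ⟨y * (β - M₁), fun k => ?_⟩
  have e : (M₁ + m * (k : ℤ)) % (q : ℤ) = β ↔ M₁ + m * (k : ℤ) ≡ β [ZMOD (q : ℤ)] := by
    unfold Int.ModEq
    rw [hβ]
  rw [e]
  constructor
  · intro h
    have h2 : m * (k : ℤ) ≡ β - M₁ [ZMOD (q : ℤ)] := by
      have := h.sub_right M₁
      rwa [add_sub_cancel_left] at this
    have h3 : y * (m * (k : ℤ)) ≡ y * (β - M₁) [ZMOD (q : ℤ)] := h2.mul_left y
    have h4 : y * (m * (k : ℤ)) ≡ (k : ℤ) [ZMOD (q : ℤ)] := by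
      have := hyu.mul_right (k : ℤ)
      rwa [mul_assoc, one_mul] at this
    exact h4.symm.trans h3
  · intro h
    have h3 : m * (k : ℤ) ≡ m * (y * (β - M₁)) [ZMOD (q : ℤ)] := h.mul_left m
    have h4 : m * (y * (β - M₁)) ≡ β - M₁ [ZMOD (q : ℤ)] := by
      have := hyu.mul_right (β - M₁)
      rw [one_mul] at this
      rwa [show m * (y * (β - M₁)) = y * m * (β - M₁) by ring]
    have h5 := (h3.trans h4).add_left M₁
    rwa [add_sub_cancel] at h5

theorem cB_card (B : ℕ → Finset ℤ) (M₁ m : ℤ) (X : ℕ) (Q : Finset ℕ)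
    (hQ : ∀ p ∈ Q, p.Prime ∧ ¬ (p : ℤ) ∣ m ∧ ∀ β ∈ B p, 0 ≤ β ∧ β < p) :
    ∀ (a : ℕ → ℤ) (D : Finset ℕ), (∀ p ∈ D, p.Prime) → Disjoint D Q →
    |((cB B M₁ m X a D Q).card : ℝ) - X * W D * ∏ p ∈ Q, (((B p).card : ℝ) / p)| ≤
      ∏ p ∈ Q, ((B p).card : ℝ) := by
  classical
  induction Q using Finset.induction with
  | empty =>
    intro a D hD _
    have e : cB B M₁ m X a D ∅ = cl X a D := by
      unfold cB
      simp
    rw [e, prod_empty, prod_empty, mul_one]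
    exact cl_card X a D hD
  | insert q Q hq ih =>
    intro a D hD hdis
    obtain ⟨hqp, hqm, hqB⟩ := hQ q (mem_insert_self _ _)
    have hqD : q ∉ D := fun h => (disjoint_left.1 hdis h) (mem_insert_self _ _)
    have hs : ∀ β : ℤ, ∃ β' : ℤ, β ∈ B q → ∀ k : ℕ,
        (M₁ + m * (k : ℤ)) % (q : ℤ) = β ↔ (k : ℤ) ≡ β' [ZMOD (q : ℤ)] := by
      intro β
      by_cases hβ : β ∈ B q
      · obtain ⟨β', h⟩ := solve q hqp M₁ m hqm β (hqB β hβ).1 (hqB β hβ).2
        exact ⟨β', fun _ => h⟩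
      · exact ⟨0, fun h => absurd h hβ⟩
    choose s hs using hs
    have h1 : (cB B M₁ m X a D (insert q Q)).card =
        ∑ β ∈ B q, (cB B M₁ m X (Function.update a q (s β)) (insert q D) Q).card := by
      rw [card_eq_sum_card_fiberwise (f := fun k : ℕ => (M₁ + m * (k : ℤ)) % (q : ℤ)) (t := B q)]
      · refine sum_congr rfl fun β hβ => ?_
        congr 1
        ext k
        unfold cB cl
        simp only [mem_filter, forall_mem_insert]
        rw [Function.update_self]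
        have e1 : (∀ p ∈ D, (k : ℤ) ≡ Function.update a q (s β) p [ZMOD (p : ℤ)]) ↔
            (∀ p ∈ D, (k : ℤ) ≡ a p [ZMOD (p : ℤ)]) := by
          refine forall₂_congr fun p hp => ?_
          have hpq : p ≠ q := fun h => hqD (h ▸ hp)
          rw [Function.update_of_ne hpq]
        rw [e1, ← hs β hβ k]
        constructor
        · rintro ⟨⟨⟨g1, g2⟩, g3, g4⟩, g5⟩
          exact ⟨⟨g1, g5, g2⟩, g4⟩
        · rintro ⟨⟨g1, g5, g2⟩, g4⟩
          exact ⟨⟨⟨g1, g2⟩, by rw [g5]; exact hβ, g4⟩, g5⟩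
      · intro k hk
        unfold cB at hk
        rw [mem_coe, mem_filter] at hk
        exact hk.2 q (mem_insert_self _ _)
    have h2 : ∀ β ∈ B q, |((cB B M₁ m X (Function.update a q (s β)) (insert q D) Q).card : ℝ) -
        X * W (insert q D) * ∏ p ∈ Q, (((B p).card : ℝ) / p)| ≤ ∏ p ∈ Q, ((B p).card : ℝ) := by
      intro β _
      apply ih (fun p hp => hQ p (mem_insert_of_mem hp))
      · intro p hp
        rw [mem_insert] at hp
        rcases hp with rfl | hp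
        · exact hqp
        · exact hD p hp
      · rw [disjoint_insert_left]
        exact ⟨hq, disjoint_of_subset_right (subset_insert _ _) hdis⟩
    rw [h1, prod_insert hq, prod_insert hq]
    have hW : W (insert q D) = 1 / (q : ℝ) * W D := by
      unfold W
      rw [prod_insert hqD]
    have e : ((∑ β ∈ B q, (cB B M₁ m X (Function.update a q (s β)) (insert q D) Q).card : ℕ) : ℝ) -
        X * W D * (((B q).card : ℝ) / q * ∏ p ∈ Q, (((B p).card : ℝ) / p)) =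
        ∑ β ∈ B q, (((cB B M₁ m X (Function.update a q (s β)) (insert q D) Q).card : ℝ) -
          X * W (insert q D) * ∏ p ∈ Q, (((B p).card : ℝ) / p)) := by
      rw [sum_sub_distrib, sum_const, nsmul_eq_mul, hW]
      push_cast
      ring
    rw [e]
    refine (abs_sum_le_sum_abs _ _).trans ((sum_le_sum h2).trans (le_of_eq ?_))
    rw [sum_const, nsmul_eq_mul]

/-- the sieve -/
theorem msieve (B : ℕ → Finset ℤ) (M₁ m : ℤ) (X : ℕ) (P : Finset ℕ)
    (hP : ∀ p ∈ P, p.Prime ∧ ¬ (p : ℤ) ∣ m ∧ ∀ β ∈ B p, 0 ≤ β ∧ β < p) {K : ℝ}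
    (hK : ∑ p ∈ P, ((B p).card : ℝ) / p ≤ K) (r : ℕ) (Y : ℝ) (hY : 1 ≤ Y)
    (hPY : ∑ p ∈ P, ((B p).card : ℝ) ≤ Y) :
    |((((Icc 1 X).filter (fun k : ℕ => ∀ p ∈ P, (M₁ + m * (k : ℤ)) % (p : ℤ) ∉ B p)).card : ℕ) : ℝ) -
      X * ∏ p ∈ P, (1 - ((B p).card : ℝ) / p)| ≤ 2 * tau K r * X + (r + 2) * Y ^ (r + 1) := by
  classical
  set w : ℕ → ℝ := fun p => ((B p).card : ℝ) / p with hw
  have hw0 : ∀ p, 0 ≤ w p := fun p => by simp only [hw]; positivity
  have hb0 : ∀ p : ℕ, (0 : ℝ) ≤ ((B p).card : ℝ) := fun p => by positivity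
  set S : ℕ → ℝ := fun j => ∑ Q ∈ powersetCard j P, ((cB B M₁ m X (fun _ => 0) ∅ Q).card : ℝ) with hS
  have h1 : ∀ j, j ≤ r + 1 → |S j - X * es w j P| ≤ Y ^ (r + 1) := by
    intro j hj
    have e1 : S j - X * es w j P = ∑ Q ∈ powersetCard j P,
        (((cB B M₁ m X (fun _ => 0) ∅ Q).card : ℝ) - X * ∏ p ∈ Q, w p) := by
      rw [hS, sum_sub_distrib, ← mul_sum]
      rfl
    rw [e1]
    have h2 : ∀ Q ∈ powersetCard j P,
        |((cB B M₁ m X (fun _ => 0) ∅ Q).card : ℝ) - X * ∏ p ∈ Q, w p| ≤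
          ∏ p ∈ Q, ((B p).card : ℝ) := by
      intro Q hQ
      rw [mem_powersetCard] at hQ
      have := cB_card B M₁ m X Q (fun p hp => hP p (hQ.1 hp)) (fun _ => 0) ∅ (by simp)
        (disjoint_empty_left _)
      have e : W (∅ : Finset ℕ) = 1 := by unfold W; simp
      rw [e, mul_one] at this
      exact this
    refine (abs_sum_le_sum_abs _ _).trans ((sum_le_sum h2).trans ?_)
    have h3 := es_le (w := fun p : ℕ => ((B p).card : ℝ)) hb0 j P
    unfold es at h3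
    refine h3.trans ?_
    have hsum0 : 0 ≤ ∑ p ∈ P, ((B p).card : ℝ) := sum_nonneg fun p _ => hb0 p
    calc (∑ p ∈ P, ((B p).card : ℝ)) ^ j / (j.factorial : ℝ) ≤
        (∑ p ∈ P, ((B p).card : ℝ)) ^ j := by
          apply div_le_self (pow_nonneg hsum0 j)
          exact_mod_cast Nat.one_le_iff_ne_zero.2 (Nat.factorial_ne_zero j)
      _ ≤ Y ^ j := pow_le_pow_left₀ hsum0 hPY j
      _ ≤ Y ^ (r + 1) := pow_le_pow_right₀ hY hj
  have h2 : ∀ j, S j = ∑ k ∈ Icc 1 X,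
      ((((P.filter (fun p : ℕ => (M₁ + m * (k : ℤ)) % (p : ℤ) ∈ B p)).card.choose j : ℕ)) : ℝ) := by
    intro j
    have e1 : ∀ k : ℕ, ((((P.filter (fun p : ℕ =>
        (M₁ + m * (k : ℤ)) % (p : ℤ) ∈ B p)).card.choose j : ℕ)) : ℝ) =
        ∑ Q ∈ powersetCard j P,
          if (∀ p ∈ Q, (M₁ + m * (k : ℤ)) % (p : ℤ) ∈ B p) then (1 : ℝ) else 0 := by
      intro k
      rw [← card_powersetCard, sum_ite, sum_const_zero, add_zero, sum_const, nsmul_eq_mul, mul_one]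
      congr 2
      ext Q
      simp only [mem_powersetCard, mem_filter]
      constructor
      · rintro ⟨h, h'⟩
        exact ⟨⟨fun p hp => (mem_filter.1 (h hp)).1, h'⟩, fun p hp => (mem_filter.1 (h hp)).2⟩
      · rintro ⟨⟨h, h'⟩, h''⟩
        exact ⟨fun p hp => mem_filter.2 ⟨h hp, h'' p hp⟩, h'⟩
    rw [hS, sum_congr rfl fun k _ => e1 k, sum_comm]
    refine sum_congr rfl fun Q _ => ?_
    rw [sum_ite, sum_const_zero, add_zero, sum_const, nsmul_eq_mul, mul_one]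
    congr 2
    unfold cB cl
    simp
  have h3 : ((((Icc 1 X).filter (fun k : ℕ =>
      ∀ p ∈ P, (M₁ + m * (k : ℤ)) % (p : ℤ) ∉ B p)).card : ℕ) : ℝ) =
      ∑ k ∈ Icc 1 X, (if (P.filter (fun p : ℕ => (M₁ + m * (k : ℤ)) % (p : ℤ) ∈ B p)).card = 0
        then (1 : ℝ) else 0) := by
    rw [sum_ite, sum_const_zero, add_zero, sum_const, nsmul_eq_mul, mul_one]
    congr 2
    ext k
    simp only [mem_filter, card_eq_zero, filter_eq_empty_iff]
  have h4 : |((((Icc 1 X).filter (fun k : ℕ =>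
      ∀ p ∈ P, (M₁ + m * (k : ℤ)) % (p : ℤ) ∉ B p)).card : ℕ) : ℝ) -
      ∑ j ∈ range (r + 1), (-1 : ℝ) ^ j * S j| ≤ S (r + 1) := by
    have e1 : ∑ j ∈ range (r + 1), (-1 : ℝ) ^ j * S j = ∑ k ∈ Icc 1 X,
        ∑ j ∈ range (r + 1), (-1 : ℝ) ^ j * ((((P.filter (fun p : ℕ =>
          (M₁ + m * (k : ℤ)) % (p : ℤ) ∈ B p)).card.choose j : ℕ)) : ℝ) := by
      simp only [h2, mul_sum]
      rw [sum_comm]
    rw [h3, e1, ← sum_sub_distrib, h2 (r + 1)]
    refine (abs_sum_le_sum_abs _ _).trans (sum_le_sum fun k _ => ?_)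
    rw [abs_sub_comm]
    exact bonf _ r
  have h5 : S (r + 1) ≤ tau K r * X + Y ^ (r + 1) := by
    have g1 := (abs_le.1 (h1 (r + 1) le_rfl)).2
    have g2 := mul_le_mul_of_nonneg_left (es_tail hw0 P hK r) (show (0 : ℝ) ≤ X by positivity)
    linarith
  have h6 : |∑ j ∈ range (r + 1), (-1 : ℝ) ^ j * S j -
      X * ∑ j ∈ range (r + 1), (-1 : ℝ) ^ j * es w j P| ≤ (r + 1) * Y ^ (r + 1) := by
    rw [mul_sum, ← sum_sub_distrib]
    refine (abs_sum_le_sum_abs _ _).trans ?_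
    have g1 : ∀ j ∈ range (r + 1), |(-1 : ℝ) ^ j * S j - X * ((-1 : ℝ) ^ j * es w j P)| ≤
        Y ^ (r + 1) := by
      intro j hj
      rw [mem_range] at hj
      have e : (-1 : ℝ) ^ j * S j - X * ((-1 : ℝ) ^ j * es w j P) =
          (-1 : ℝ) ^ j * (S j - X * es w j P) := by ring
      rw [e, abs_mul, abs_pow, abs_neg, abs_one, one_pow, one_mul]
      exact h1 j (by omega)
    refine (sum_le_sum g1).trans (le_of_eq ?_)
    rw [sum_const, card_range, nsmul_eq_mul]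
    push_cast
    ring
  have h7 : |X * ∑ j ∈ range (r + 1), (-1 : ℝ) ^ j * es w j P - X * ∏ p ∈ P, (1 - w p)| ≤
      tau K r * X := by
    rw [← mul_sub, abs_mul, abs_of_nonneg (show (0 : ℝ) ≤ X by positivity), mul_comm]
    exact mul_le_mul_of_nonneg_right (es_trunc hw0 P hK r) (by positivity)
  obtain ⟨a1, a2⟩ := abs_le.1 h4
  obtain ⟨a3, a4⟩ := abs_le.1 h6
  obtain ⟨a5, a6⟩ := abs_le.1 h7
  rw [abs_le]
  constructor <;> linarith

end Pool.Agent.Lib.TC93
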