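import Pool.Agent.Lib.TC93.E2
import Pool.Agent.Lib.TC93.D1

set_option autoImplicit false

/-!
The weights given by an arithmetic progression sieved by several classes have a density on all
dilated intervals.
-/

namespace Pool.Agent.Lib.TC93

open Finset Pool.Agent.Lib.MP_ba437d_nt

/-- the weight of the `u` with `u + g = R M`, `M` in no class of `B` -/
noncomputable def ff (B : ℕ → Finset ℤ) (P : Finset ℕ) (R g : ℕ) (u : ℕ) : ℝ :=
  if R ∣ u + g ∧ ∀ p ∈ P, (((u + g) / R : ℕ) : ℤ) % (p : ℤ) ∉ B p then 1 else 0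

theorem ff_bd (B : ℕ → Finset ℤ) (P : Finset ℕ) (R g : ℕ) (u : ℕ) :
    0 ≤ ff B P R g u ∧ ff B P R g u ≤ 1 := by
  unfold ff
  split_ifs <;> norm_num

/-- the class modulo `R` -/
theorem class_R (m R g : ℕ) (hR : 0 < R) (hmR : Nat.Coprime m R) :
    ∃ r₀ : ℕ, r₀ < R ∧ ∀ r : ℕ, R ∣ m * r + g ↔ r % R = r₀ := by
  have hco : IsCoprime (m : ℤ) (R : ℤ) := Nat.isCoprime_iff_coprime.2 hmR
  obtain ⟨x, y, hxy⟩ := hco
  have hR0 : (0 : ℤ) < R := by exact_mod_cast hR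
  have hn : 0 ≤ (-(x * g)) % (R : ℤ) := Int.emod_nonneg _ hR0.ne'
  have hl : (-(x * g)) % (R : ℤ) < R := Int.emod_lt_of_pos _ hR0
  refine ⟨((-(x * g)) % (R : ℤ)).toNat, by omega, fun r => ?_⟩
  have e1 : (r % R = ((-(x * g)) % (R : ℤ)).toNat) ↔ (r : ℤ) ≡ -(x * g) [ZMOD (R : ℤ)] := by
    unfold Int.ModEq
    constructor
    · intro h
      have : ((r % R : ℕ) : ℤ) = (-(x * g)) % (R : ℤ) := by
        rw [h]
        exact Int.toNat_of_nonneg hn
      rw [← this]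
      push_cast
      rfl
    · intro h
      have : ((r % R : ℕ) : ℤ) = (-(x * g)) % (R : ℤ) := by
        rw [← h]
        push_cast
        rfl
      rw [← this]
      exact (Int.toNat_natCast _).symm
  rw [e1, ← Int.natCast_dvd_natCast]
  push_cast
  constructor
  · rintro ⟨c, hc⟩
    rw [Int.modEq_iff_dvd]
    refine ⟨-(x * c) - y * r, ?_⟩
    linear_combination (-x) * hc + (r : ℤ) * hxy
  · intro h
    rw [Int.modEq_iff_dvd] at h
    obtain ⟨c, hc⟩ := h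
    refine ⟨y * g - m * c, ?_⟩
    linear_combination (-(m : ℤ)) * hc - (g : ℤ) * hxy

/-- the count -/
theorem ff_count (B : ℕ → Finset ℤ) (P : Finset ℕ) (m R g A₁ A₂ : ℕ) (hR : 0 < R)
    (hmR : Nat.Coprime m R) (hA : A₁ ≤ A₂) :
    ∃ (M₁ : ℤ) (N : ℕ), ((A₂ : ℝ) - A₁) / R - 1 ≤ N ∧ (N : ℝ) ≤ ((A₂ : ℝ) - A₁) / R + 1 ∧
      ∑ r ∈ Ioc A₁ A₂, ff B P R g (m * r) = ((((Icc 1 N).filter (fun k : ℕ =>
        ∀ p ∈ P, (M₁ + (m : ℤ) * (k : ℤ)) % (p : ℤ) ∉ B p)).card : ℕ) : ℝ) := by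
  classical
  obtain ⟨r₀, hr₀, hcl⟩ := class_R m R g hR hmR
  obtain ⟨k₁, hk₁⟩ : ∃ k₁ : ℕ, k₁ = (A₁ + R - r₀) / R := ⟨_, rfl⟩
  obtain ⟨k₂, hk₂⟩ : ∃ k₂ : ℕ, k₂ = (A₂ + R - r₀) / R := ⟨_, rfl⟩
  obtain ⟨M₀, hM₀⟩ : ∃ M₀ : ℕ, m * r₀ + g = R * M₀ := (hcl r₀).2 (Nat.mod_eq_of_lt hr₀)
  have hk12 : k₁ ≤ k₂ := by
    rw [hk₁, hk₂]
    exact Nat.div_le_div_right (by omega)
  have hlen := div_len (A₁ + R - r₀) (A₂ + R - r₀) R hR
  rw [← hk₁, ← hk₂] at hlen
  have e0 : ((A₂ + R - r₀ : ℕ) : ℝ) - ((A₁ + R - r₀ : ℕ) : ℝ) = (A₂ : ℝ) - A₁ := by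
    rw [Nat.cast_sub (by omega), Nat.cast_sub (by omega)]
    push_cast
    ring
  rw [e0] at hlen
  refine ⟨M₀ + (m : ℤ) * ((k₁ : ℤ) - 1), k₂ - k₁, ?_, ?_, ?_⟩
  · rw [Nat.cast_sub hk12]
    exact hlen.1
  · rw [Nat.cast_sub hk12]
    exact hlen.2
  · unfold ff
    rw [sum_ite, sum_const_zero, add_zero, sum_const, nsmul_eq_mul, mul_one]
    congr 1
    symm
    apply card_bij (fun k _ => r₀ + R * (k₁ + k - 1))
    · intro k hk
      rw [mem_filter, mem_Icc] at hk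
      obtain ⟨⟨h1, h2⟩, h3⟩ := hk
      rw [mem_filter, mem_Ioc]
      have hkk : k₁ ≤ k₁ + k - 1 := by omega
      have hkk2 : k₁ + k - 1 + 1 ≤ k₂ := by omega
      have g1 : A₁ < r₀ + R * (k₁ + k - 1) := by
        have h4 : A₁ + R - r₀ < R * (k₁ + 1) := by
          rw [hk₁, mul_comm]
          exact Nat.lt_mul_of_div_lt (Nat.lt_succ_self _) hR
        have h5 : R * (k₁ + 1) ≤ R * (k₁ + k - 1 + 1) := Nat.mul_le_mul_left _ (by omega)
        have h6 : R * (k₁ + k - 1 + 1) = R * (k₁ + k - 1) + R := by ring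
        omega
      have g2 : r₀ + R * (k₁ + k - 1) ≤ A₂ := by
        have h4 : (k₁ + k - 1 + 1) * R ≤ A₂ + R - r₀ := by
          rw [← Nat.le_div_iff_mul_le hR, ← hk₂]
          exact hkk2
        have h6 : (k₁ + k - 1 + 1) * R = R * (k₁ + k - 1) + R := by ring
        omega
      have g3 : m * (r₀ + R * (k₁ + k - 1)) + g = R * (M₀ + m * (k₁ + k - 1)) := by
        calc m * (r₀ + R * (k₁ + k - 1)) + g = (m * r₀ + g) + R * (m * (k₁ + k - 1)) := by ring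
          _ = _ := by rw [hM₀]; ring
      refine ⟨⟨g1, g2⟩, ⟨_, g3⟩, ?_⟩
      rw [g3, Nat.mul_div_cancel_left _ hR]
      intro p hp
      have h4 := h3 p hp
      have e : ((M₀ + m * (k₁ + k - 1) : ℕ) : ℤ) =
          (M₀ : ℤ) + (m : ℤ) * ((k₁ : ℤ) - 1) + (m : ℤ) * (k : ℤ) := by
        have : ((k₁ + k - 1 : ℕ) : ℤ) = (k₁ : ℤ) + k - 1 := by
          rw [Nat.cast_sub (by omega)]
          push_cast
          ring
        rw [Nat.cast_add, Nat.cast_mul, this]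
        ring
      rw [e]
      exact h4
    · intro k hk k' hk' h
      rw [mem_filter, mem_Icc] at hk hk'
      have h1 : R * (k₁ + k - 1) = R * (k₁ + k' - 1) := Nat.add_left_cancel h
      have h2 := Nat.eq_of_mul_eq_mul_left hR h1
      omega
    · intro r hr
      rw [mem_filter, mem_Ioc] at hr
      obtain ⟨⟨h1, h2⟩, h3, h4⟩ := hr
      have h5 := (hcl r).1 h3
      obtain ⟨k, hk⟩ : ∃ k, r = r₀ + R * k := ⟨r / R, by
        rw [← h5]
        exact (Nat.mod_add_div r R).symm⟩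
      have h6 : k₁ ≤ k := by
        have : A₁ + R - r₀ < R * (k + 1) := by
          have e : R * (k + 1) = R * k + R := by ring
          omega
        have h7 : k₁ < k + 1 := by
          rw [hk₁, Nat.div_lt_iff_lt_mul hR, mul_comm]
          exact this
        omega
      have h7 : k + 1 ≤ k₂ := by
        rw [hk₂, Nat.le_div_iff_mul_le hR]
        have e : (k + 1) * R = R * k + R := by ring
        omega
      refine ⟨k - k₁ + 1, ?_, ?_⟩
      · rw [mem_filter, mem_Icc]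
        refine ⟨⟨by omega, by omega⟩, fun p hp => ?_⟩
        have h8 := h4 p hp
        have g3 : m * r + g = R * (M₀ + m * k) := by
          rw [hk]
          calc m * (r₀ + R * k) + g = (m * r₀ + g) + R * (m * k) := by ring
            _ = _ := by rw [hM₀]; ring
        rw [g3, Nat.mul_div_cancel_left _ hR] at h8
        have e : (M₀ : ℤ) + (m : ℤ) * ((k₁ : ℤ) - 1) + (m : ℤ) * ((k - k₁ + 1 : ℕ) : ℤ) =
            ((M₀ + m * k : ℕ) : ℤ) := by
          rw [Nat.cast_add (k - k₁), Nat.cast_sub h6]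
          push_cast
          ring
        rw [e]
        exact h8
      · have : k₁ + (k - k₁ + 1) - 1 = k := by omega
        rw [this]
        exact hk.symm

/-- density on all dilated intervals -/
theorem ff_lev (B : ℕ → Finset ℤ) (P : Finset ℕ) (R g : ℕ) (Z X₀ ε K Y V₀ : ℝ) (r : ℕ)
    (hR : 0 < R) (hRZ : (R : ℝ) ≤ Z)
    (hP : ∀ p ∈ P, p.Prime ∧ (p : ℝ) ≤ Z ∧ (∀ β ∈ B p, 0 ≤ β ∧ β < p) ∧
      ((B p).card : ℝ) / p ≤ 1 / 2)
    (hK : ∑ p ∈ P, ((B p).card : ℝ) / p ≤ K) (hY : 1 ≤ Y) (hPY : ∑ p ∈ P, ((B p).card : ℝ) ≤ Y)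
    (hε1 : ε ≤ 1) (hε0 : 0 < ε) (hV₀ : 0 < V₀)
    (hV : V₀ ≤ ∏ p ∈ P, (1 - ((B p).card : ℝ) / p)) (hτ : 4 * tau K r ≤ ε * V₀)
    (hX₀ : (r + 4) * Y ^ (r + 1) ≤ ε * V₀ * X₀ / (2 * R)) :
    Lev (ff B P R g) ((∏ p ∈ P, (1 - ((B p).card : ℝ) / p)) / R) Z X₀ ε := by
  classical
  intro m hm A₁ A₂ hA
  have hR0 : (0 : ℝ) < R := by exact_mod_cast hR
  set V : ℝ := ∏ p ∈ P, (1 - ((B p).card : ℝ) / p) with hVd
  have hV1 : V ≤ 1 := prod_le_one (fun p hp => by linarith [(hP p hp).2.2.2]) fun p _ => by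
    have : (0 : ℝ) ≤ ((B p).card : ℝ) / p := by positivity
    linarith
  have hYr : 1 ≤ Y ^ (r + 1) := one_le_pow₀ hY
  have hX0 : 0 ≤ X₀ := by
    by_contra hcon
    push Not at hcon
    have h1 : ε * V₀ * X₀ / (2 * R) ≤ 0 := by
      apply div_nonpos_of_nonpos_of_nonneg _ (by positivity)
      exact mul_nonpos_of_nonneg_of_nonpos (by positivity) hcon.le
    have h2 : 0 < ((r : ℝ) + 4) * Y ^ (r + 1) := by positivity
    linarith
  have hA' : A₁ ≤ A₂ := by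
    have : (A₁ : ℝ) ≤ A₂ := by linarith
    exact_mod_cast this
  have hmR : Nat.Coprime m R := by
    by_contra hcon
    obtain ⟨q, hq, hqm, hqR⟩ := Nat.Prime.not_coprime_iff_dvd.1 hcon
    have h1 := hm.2 q hq hqm
    have h2 : (q : ℝ) ≤ R := by exact_mod_cast Nat.le_of_dvd hR hqR
    linarith
  obtain ⟨M₁, N, hN1, hN2, hcount⟩ := ff_count B P m R g A₁ A₂ hR hmR hA'
  have hK0 : 0 ≤ K := le_trans (sum_nonneg fun p _ => by positivity) hK
  have h1 := msieve B M₁ m N P (fun p hp => by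
    obtain ⟨hpp, hpZ, hpB, _⟩ := hP p hp
    refine ⟨hpp, fun hdv => ?_, hpB⟩
    have := hm.2 p hpp (by exact_mod_cast hdv)
    linarith) hK r Y hY hPY
  rw [← hcount, ← hVd] at h1
  set t : ℝ := ((A₂ : ℝ) - A₁) / R with ht
  have ht0 : X₀ / R ≤ t := div_le_div_of_nonneg_right (by linarith) hR0.le
  have e : V / R * ((A₂ : ℝ) - A₁) = V * t := by
    rw [ht]
    ring
  rw [e]
  have hτ0 := tau_nonneg hK0 r
  have hN0 : (0 : ℝ) ≤ N := by positivity
  have h2 : |(N : ℝ) * V - V * t| ≤ V := by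
    have e : (N : ℝ) * V - V * t = V * (N - t) := by ring
    have hVp : 0 < V := lt_of_lt_of_le hV₀ hV
    rw [e, abs_mul, abs_of_pos hVp]
    have : |(N : ℝ) - t| ≤ 1 := by
      rw [abs_le]
      constructor <;> linarith
    nlinarith
  have h3 : ε * V₀ * X₀ / (2 * R) = ε * V₀ * (X₀ / R) / 2 := by
    field_simp
  have h4 : ε * V₀ * (X₀ / R) / 2 ≤ ε * V * t / 2 := by
    have g1 : ε * V₀ ≤ ε * V := mul_le_mul_of_nonneg_left hV hε0.le
    have g2 : 0 ≤ X₀ / R := by positivity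
    have g3 : ε * V₀ * (X₀ / R) ≤ ε * V * (X₀ / R) := mul_le_mul_of_nonneg_right g1 g2
    have g4 : ε * V * (X₀ / R) ≤ ε * V * t :=
      mul_le_mul_of_nonneg_left ht0 (mul_nonneg hε0.le (hV₀.le.trans hV))
    linarith
  have ht' : 0 ≤ t := le_trans (by positivity) ht0
  have h5 : 2 * tau K r * N ≤ ε * V * t / 2 + 1 := by
    have g1 : 2 * tau K r * N ≤ 2 * tau K r * (t + 1) :=
      mul_le_mul_of_nonneg_left hN2 (by positivity)
    have g2 : 4 * tau K r * t ≤ ε * V * t :=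
      mul_le_mul_of_nonneg_right (hτ.trans (mul_le_mul_of_nonneg_left hV hε0.le)) ht'
    have g3 : ε * V₀ ≤ 1 * 1 := mul_le_mul hε1 (hV.trans hV1) hV₀.le (by norm_num)
    linarith
  obtain ⟨a1, a2⟩ := abs_le.1 h1
  obtain ⟨a3, a4⟩ := abs_le.1 h2
  have e6 : ε * (V * t) = ε * V * t := by ring
  rw [e6, abs_le]
  constructor <;> nlinarith

end Pool.Agent.Lib.TC93
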