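import Mathlib

set_option autoImplicit false

/-!
A sequence `0 = c 0 < c 1 < ...` growing fast, with `c j - c i` dividing `c k - c i` for
`i < j ≤ k`.
-/

namespace Pool.Agent.Lib.TC93

open Finset

/-- the sequence -/
def cs (F : ℕ) : ℕ → ℕ
  | 0 => 0
  | n + 1 => cs F n + F * ∏ l : Fin n, (cs F n - cs F l.1)
decreasing_by
  all_goals first
    | exact Nat.lt_succ_self _
    | exact Nat.lt_succ_of_lt l.2

/-- the increments -/
def ls (F n : ℕ) : ℕ := F * ∏ l ∈ range n, (cs F n - cs F l)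

theorem cs_zero (F : ℕ) : cs F 0 = 0 := by rw [cs]

theorem cs_succ (F n : ℕ) : cs F (n + 1) = cs F n + ls F n := by
  rw [cs, ls, ← Fin.prod_univ_eq_prod_range (fun l => cs F n - cs F l) n]

theorem cs_lt_aux (F : ℕ) (hF : 0 < F) (n : ℕ) : ∀ l, l < n → cs F l < cs F n := by
  induction n with
  | zero => intro l hl; omega
  | succ n ih =>
    intro l hl
    rw [cs_succ]
    have h1 : 0 < ls F n := by
      unfold ls
      apply Nat.mul_pos hF
      apply prod_pos
      intro l hl
      rw [mem_range] at hl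
      have := ih l hl
      omega
    rcases Nat.lt_succ_iff_lt_or_eq.1 hl with h | h
    · have := ih l h
      omega
    · rw [h]
      omega

theorem cs_lt {F : ℕ} (hF : 0 < F) {i j : ℕ} (h : i < j) : cs F i < cs F j :=
  cs_lt_aux F hF j i h

theorem cs_le {F : ℕ} (hF : 0 < F) {i j : ℕ} (h : i ≤ j) : cs F i ≤ cs F j := by
  rcases h.lt_or_eq with h | h
  · exact (cs_lt hF h).le
  · rw [h]

theorem dvd_ls {F i j : ℕ} (h : i < j) :
    ∀ m, j ≤ m → F * (cs F j - cs F i) ∣ ls F m := by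
  intro m hm
  induction m, hm using Nat.le_induction with
  | base =>
    unfold ls
    exact Nat.mul_dvd_mul_left F (dvd_prod_of_mem (fun l => cs F j - cs F l) (mem_range.2 h))
  | succ m hm ih =>
    have h1 : ls F m ∣ ls F (m + 1) := by
      have h2 : (cs F (m + 1) - cs F m) ∣ ls F (m + 1) := by
        unfold ls
        exact (dvd_prod_of_mem (fun l => cs F (m + 1) - cs F l)
          (mem_range.2 (Nat.lt_succ_self m))).mul_left F
      rwa [cs_succ F m, Nat.add_sub_cancel_left] at h2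
    exact ih.trans h1

theorem dvd_cs {F : ℕ} (hF : 0 < F) {i j : ℕ} (h : i < j) :
    ∀ k, j ≤ k → F * (cs F j - cs F i) ∣ (cs F k - cs F j) := by
  intro k hk
  induction k, hk using Nat.le_induction with
  | base => rw [Nat.sub_self]; exact dvd_zero _
  | succ k hk ih =>
    have e : cs F (k + 1) - cs F j = (cs F k - cs F j) + ls F k := by
      rw [cs_succ]
      have := cs_le hF hk
      omega
    rw [e]
    exact dvd_add ih (dvd_ls h k hk)

/-- the divisibility -/
theorem dvd_cs' {F : ℕ} (hF : 0 < F) {i j k : ℕ} (h : i < j) (hk : j ≤ k) :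
    (cs F j - cs F i) ∣ (cs F k - cs F i) := by
  have e : cs F k - cs F i = (cs F k - cs F j) + (cs F j - cs F i) := by
    have h1 := cs_le hF hk
    have h2 := cs_lt hF h
    omega
  rw [e]
  exact dvd_add ((Dvd.intro_left F rfl).trans (dvd_cs hF h k hk)) dvd_rfl

/-- the growth -/
theorem cs_grow {F : ℕ} (hF : 0 < F) {i j : ℕ} (h : i < j) : F * cs F i ≤ cs F j - cs F i := by
  rcases Nat.eq_zero_or_pos i with rfl | hi
  · rw [cs_zero, mul_zero]
    exact Nat.zero_le _
  · have h1 : F * cs F i ≤ ls F i := by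
      unfold ls
      apply Nat.mul_le_mul_left
      apply Nat.le_of_dvd
      · apply prod_pos
        intro l hl
        rw [mem_range] at hl
        have := cs_lt hF hl
        omega
      · have h2 := dvd_prod_of_mem (fun l => cs F i - cs F l) (mem_range.2 hi)
        simpa only [cs_zero, Nat.sub_zero] using h2
    have h2 : cs F (i + 1) ≤ cs F j := cs_le hF h
    rw [cs_succ] at h2
    omega

/-- the first difference -/
theorem cs_one (F : ℕ) : cs F 1 = F := by
  rw [cs_succ, cs_zero, ls, range_zero, prod_empty, mul_one, zero_add]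

/-- the pairs -/
def prs (k : ℕ) : Finset (ℕ × ℕ) := ((range (k + 1)) ×ˢ (range (k + 1))).filter (fun z => z.1 < z.2)

theorem mem_prs {k : ℕ} {z : ℕ × ℕ} : z ∈ prs k ↔ z.1 < z.2 ∧ z.2 ≤ k := by
  unfold prs
  rw [mem_filter, mem_product, mem_range, mem_range]
  omega

theorem card_prs (k : ℕ) : (prs k).card ≤ (k + 1) ^ 2 := by
  unfold prs
  refine (card_filter_le _ _).trans ?_
  rw [card_product, card_range, sq]

/-- the modulus -/
def RR (F k : ℕ) : ℕ := F * (∏ z ∈ prs k, (cs F z.2 - cs F z.1)) ^ 2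

theorem RR_pos {F : ℕ} (hF : 0 < F) (k : ℕ) : 0 < RR F k := by
  unfold RR
  apply Nat.mul_pos hF
  apply pow_pos
  apply prod_pos
  intro z hz
  have := cs_lt hF (mem_prs.1 hz).1
  omega

theorem F_dvd_RR (F k : ℕ) : F ∣ RR F k := dvd_mul_right _ _

theorem dvd_RR {F : ℕ} {k : ℕ} {z : ℕ × ℕ} (hz : z ∈ prs k) : (cs F z.2 - cs F z.1) ∣ RR F k := by
  unfold RR
  rw [sq]
  exact ((dvd_prod_of_mem (fun z : ℕ × ℕ => cs F z.2 - cs F z.1) hz).mul_left _).mul_left F

theorem prime_dvd_RR {F : ℕ} {k : ℕ} {z : ℕ × ℕ} (hz : z ∈ prs k) {p : ℕ} (hp : p.Prime)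
    (hpR : p ∣ RR F k) : p * (cs F z.2 - cs F z.1) ∣ RR F k := by
  have h1 := dvd_prod_of_mem (fun z : ℕ × ℕ => cs F z.2 - cs F z.1) hz
  unfold RR at hpR ⊢
  rcases hp.dvd_mul.1 hpR with h | h
  · exact Nat.mul_dvd_mul h (h1.trans (Dvd.intro_left _ (sq _).symm))
  · have h2 := hp.dvd_of_dvd_pow h
    rw [sq]
    exact (Nat.mul_dvd_mul h2 h1).mul_left F

end Pool.Agent.Lib.TC93
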