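import Pool.Agent.Lib.TC93.F1
import Pool.Agent.Lib.TC93.E3
import Pool.Agent.Lib.TC93.D2
import Pool.Agent.Lib.OC93.Geo

set_option autoImplicit false

/-!
The counting argument.
-/

namespace Pool.Agent.Lib.TC93

open Finset Pool.Agent.Lib.MP_ba437d_nt Pool.Agent.Lib.OC93

/-- the admissible `M` -/
noncomputable def MM (B : ℕ → Finset ℤ) (P : Finset ℕ) (R A X : ℕ) : Finset ℕ := by
  classical
  exact (range (A + X + 1)).filter (fun M => A < R * M ∧ R * M ≤ A + X ∧
    ∀ p ∈ P, (M : ℤ) % (p : ℤ) ∉ B p)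

theorem mem_MM {B : ℕ → Finset ℤ} {P : Finset ℕ} {R A X M : ℕ} (hR : 0 < R) :
    M ∈ MM B P R A X ↔ A < R * M ∧ R * M ≤ A + X ∧ ∀ p ∈ P, (M : ℤ) % (p : ℤ) ∉ B p := by
  unfold MM
  rw [mem_filter, mem_range]
  constructor
  · exact fun h => h.2
  · intro h
    refine ⟨?_, h⟩
    have : 1 * M ≤ R * M := Nat.mul_le_mul_right M hR
    omega

/-- the sums over `u` as sums over `M` -/
theorem sum_ff (B : ℕ → Finset ℤ) (P : Finset ℕ) (R g A X : ℕ) (hR : 0 < R) (φ : ℕ → ℝ) :
    ∑ u ∈ Ioc A (A + X), ff B P R g u * φ u = ∑ M ∈ MM B P R (A + g) X, φ (R * M - g) := by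
  classical
  have h1 : ∑ u ∈ Ioc A (A + X), ff B P R g u * φ u =
      ∑ u ∈ (Ioc A (A + X)).filter (fun u => R ∣ u + g ∧
        ∀ p ∈ P, (((u + g) / R : ℕ) : ℤ) % (p : ℤ) ∉ B p), φ u := by
    rw [sum_filter]
    refine sum_congr rfl fun u _ => ?_
    unfold ff
    split_ifs <;> simp
  rw [h1]
  symm
  apply sum_bij (fun M _ => R * M - g)
  · intro M hM
    rw [mem_MM hR] at hM
    obtain ⟨h2, h3, h4⟩ := hM
    rw [mem_filter, mem_Ioc]
    have e : R * M - g + g = R * M := by omega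
    refine ⟨⟨by omega, by omega⟩, ?_, ?_⟩
    · rw [e]
      exact dvd_mul_right _ _
    · rw [e, Nat.mul_div_cancel_left _ hR]
      exact h4
  · intro M hM M' hM' h
    rw [mem_MM hR] at hM hM'
    have : R * M = R * M' := by omega
    exact Nat.eq_of_mul_eq_mul_left hR this
  · intro u hu
    rw [mem_filter, mem_Ioc] at hu
    obtain ⟨⟨h2, h3⟩, ⟨M, hM⟩, h4⟩ := hu
    refine ⟨M, ?_, by omega⟩
    rw [hM, Nat.mul_div_cancel_left _ hR] at h4
    rw [mem_MM hR]
    exact ⟨by omega, by omega, h4⟩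
  · intro M _
    rfl

/-- the residue classes -/
noncomputable def BB (F k : ℕ) (a : ℕ → ℤ) (h : ℕ) (s : ℕ → ℤ) (p : ℕ) : Finset ℤ := by
  classical
  exact (prs k).image (fun z => (s p * (((cs F z.2 - cs F z.1 : ℕ) : ℤ) * a p +
    (h : ℤ) * ((cs F k - cs F z.1 : ℕ) : ℤ))) % (p : ℤ))

theorem BB_card (F k : ℕ) (a : ℕ → ℤ) (h : ℕ) (s : ℕ → ℤ) (p : ℕ) :
    (BB F k a h s p).card ≤ (k + 1) ^ 2 := by
  unfold BB
  exact card_image_le.trans (card_prs k)

theorem BB_mem (F k : ℕ) (a : ℕ → ℤ) (h : ℕ) (s : ℕ → ℤ) {p : ℕ} (hp : 0 < p) :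
    ∀ β ∈ BB F k a h s p, 0 ≤ β ∧ β < p := by
  intro β hβ
  unfold BB at hβ
  rw [mem_image] at hβ
  obtain ⟨z, _, rfl⟩ := hβ
  have hp0 : (0 : ℤ) < p := by exact_mod_cast hp
  exact ⟨Int.emod_nonneg _ hp0.ne', Int.emod_lt_of_pos _ hp0⟩

/-- a good pair gives an uncovered integer -/
theorem good (F k : ℕ) (hF : 0 < F) (P : Finset ℕ) (a : ℕ → ℤ) (Z : ℝ) (h X : ℕ)
    (s : ℕ → ℤ) (hP : ∀ p ∈ P, p.Prime)
    (hs : ∀ p ∈ P, ¬ p ∣ RR F k → s p * (RR F k : ℤ) ≡ 1 [ZMOD (p : ℤ)])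
    (htiny : ∀ p ∈ P, p ∣ RR F k → ¬ (p : ℤ) ∣ a p + h ∧ (p ∣ F ∨ p ∣ h))
    (hcen : ∀ p ∈ P, Z < (p : ℝ) → (p : ℤ) ∣ a p ∨ (p : ℤ) ∣ a p + h)
    (hhX : 2 * h ≤ F * X) (z : ℕ × ℕ) (hz : z ∈ prs k) (M : ℕ)
    (hM : M ∈ MM (BB F k a h s) ((lo P Z).filter (fun p => ¬ p ∣ RR F k)) (RR F k)
      (h * cs F k) (X / 2))
    (h1 : fr (P \ lo P Z) (RR F k * M - h * (cs F k - cs F z.1)) = 1)
    (h2 : fr (P \ lo P Z) (RR F k * M - h * (cs F k - cs F z.2)) = 1) :
    (cs F z.2 - cs F z.1) ∣ (RR F k * M - h * (cs F k - cs F z.1)) ∧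
      (RR F k * M - h * (cs F k - cs F z.1)) / (cs F z.2 - cs F z.1) ∈ unc X a P := by
  classical
  have hR := RR_pos hF k
  rw [mem_MM hR] at hM
  obtain ⟨hM1, hM2, hM3⟩ := hM
  obtain ⟨hz1, hz2⟩ := mem_prs.1 hz
  have hlt := cs_lt hF hz1
  have hle := cs_le hF hz2
  have hle1 : cs F z.1 ≤ cs F k := hlt.le.trans hle
  set d : ℕ := cs F z.2 - cs F z.1 with hd
  have hd0 : 0 < d := by omega
  obtain ⟨e1, he1⟩ := dvd_RR (F := F) hz
  rw [← hd] at he1
  obtain ⟨e2, he2⟩ := dvd_cs' hF hz1 hz2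
  rw [← hd] at he2
  have hg : h * (cs F k - cs F z.1) ≤ h * cs F k := Nat.mul_le_mul_left _ (Nat.sub_le _ _)
  have hgz : h * (cs F k - cs F z.1) + h * cs F z.1 = h * cs F k := by
    rw [← Nat.mul_add, Nat.sub_add_cancel hle1]
  -- the quotient
  have hq : RR F k * M - h * (cs F k - cs F z.1) = d * (e1 * M - h * e2) := by
    rw [he1, he2, Nat.mul_sub]
    congr 1
    · ring
    · ring
  have hq' : h * e2 ≤ e1 * M := by
    have : d * (h * e2) ≤ d * (e1 * M) := by
      have g1 : d * (h * e2) = h * (cs F k - cs F z.1) := by rw [he2]; ring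
      have g2 : d * (e1 * M) = RR F k * M := by rw [he1]; ring
      omega
    exact Nat.le_of_mul_le_mul_left this hd0
  have hdv : d ∣ (RR F k * M - h * (cs F k - cs F z.1)) := ⟨_, hq⟩
  refine ⟨hdv, ?_⟩
  set n : ℕ := (RR F k * M - h * (cs F k - cs F z.1)) / d with hn
  have hdn : d * n = RR F k * M - h * (cs F k - cs F z.1) := Nat.mul_div_cancel' hdv
  have hn' : n = e1 * M - h * e2 := by
    rw [hq] at hdn
    exact Nat.eq_of_mul_eq_mul_left hd0 hdn
  unfold unc
  rw [mem_filter, mem_Icc]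
  have hn1 : 1 ≤ n := by
    by_contra hcon
    have : n = 0 := by omega
    rw [this, mul_zero] at hdn
    omega
  have hnX : n ≤ X := by
    have g1 := cs_grow hF hz1
    rw [← hd] at g1
    have g2 : 2 * (d * n) ≤ 2 * (d * X) := by
      have g3 : d * n ≤ X / 2 + h * cs F z.1 := by omega
      have g4 : 2 * (h * cs F z.1) ≤ d * X := by
        calc 2 * (h * cs F z.1) = (2 * h) * cs F z.1 := by ring
          _ ≤ (F * X) * cs F z.1 := Nat.mul_le_mul_right _ hhX
          _ = (F * cs F z.1) * X := by ring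
          _ ≤ d * X := Nat.mul_le_mul_right _ g1
      have g5 : X ≤ d * X := Nat.le_mul_of_pos_left X hd0
      omega
    have g6 : d * n ≤ d * X := by omega
    exact Nat.le_of_mul_le_mul_left g6 hd0
  refine ⟨⟨hn1, hnX⟩, fun p hp hcong => ?_⟩
  have hpp := hP p hp
  have hdnZ : (d : ℤ) * (n : ℤ) = (RR F k : ℤ) * M - (h : ℤ) * ((cs F k - cs F z.1 : ℕ) : ℤ) := by
    have g1 : h * (cs F k - cs F z.1) ≤ RR F k * M := by omega
    have : ((d * n : ℕ) : ℤ) = ((RR F k * M - h * (cs F k - cs F z.1) : ℕ) : ℤ) := by rw [hdn]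
    rw [Nat.cast_sub g1] at this
    push_cast at this
    exact this
  rcases le_or_gt (p : ℝ) Z with hpZ | hpZ
  · by_cases hpR : p ∣ RR F k
    · -- small primes dividing R
      obtain ⟨ht1, ht2⟩ := htiny p hp hpR
      apply ht1
      have h3 := prime_dvd_RR hz hpp hpR
      rw [← hd, he1, mul_comm p d] at h3
      have h4 : p ∣ e1 := Nat.dvd_of_mul_dvd_mul_left hd0 h3
      have h5 : p ∣ n + h := by
        have e3 : n + h = e1 * M - h * (e2 - 1) := by
          have g1 : 1 ≤ e2 := by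
            rcases Nat.eq_zero_or_pos e2 with g | g
            · rw [g, mul_zero] at he2
              omega
            · exact g
          obtain ⟨e4, rfl⟩ : ∃ e4, e2 = e4 + 1 := ⟨e2 - 1, by omega⟩
          have g2 : h * (e4 + 1) = h * e4 + h := by ring
          rw [Nat.add_sub_cancel]
          omega
        rw [e3]
        rcases ht2 with ht2 | ht2
        · have h6 : F * d ∣ cs F k - cs F z.2 := by
            rw [hd]
            exact dvd_cs hF hz1 k hz2
          have h7 : cs F k - cs F z.2 = d * (e2 - 1) := by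
            rw [Nat.mul_sub, ← he2, mul_one]
            omega
          rw [h7, mul_comm F d] at h6
          have h8 : F ∣ e2 - 1 := Nat.dvd_of_mul_dvd_mul_left hd0 h6
          exact Nat.dvd_sub (h4.mul_right M) ((ht2.trans h8).mul_left h)
        · exact Nat.dvd_sub (h4.mul_right M) (ht2.mul_right _)
      have h6 : (p : ℤ) ∣ ((n + h : ℕ) : ℤ) := by exact_mod_cast h5
      have h7 := dvd_add (Int.modEq_iff_dvd.1 hcong) h6
      have e : a p - (n : ℤ) + ((n + h : ℕ) : ℤ) = a p + h := by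
        push_cast
        ring
      rwa [e] at h7
    · -- the sieved primes
      have h3 := hM3 p (mem_filter.2 ⟨mem_lo.2 ⟨hp, hpZ⟩, hpR⟩)
      apply h3
      unfold BB
      rw [mem_image]
      refine ⟨z, hz, ?_⟩
      rw [← hd]
      have h4 : (d : ℤ) * a p + (h : ℤ) * ((cs F k - cs F z.1 : ℕ) : ℤ) ≡ (RR F k : ℤ) * M
          [ZMOD (p : ℤ)] := by
        have g1 : (d : ℤ) * a p ≡ (d : ℤ) * n [ZMOD (p : ℤ)] := (hcong.symm).mul_left _
        rw [hdnZ] at g1
        have g2 := g1.add_right ((h : ℤ) * ((cs F k - cs F z.1 : ℕ) : ℤ))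
        rwa [sub_add_cancel] at g2
      have h5 : s p * ((d : ℤ) * a p + (h : ℤ) * ((cs F k - cs F z.1 : ℕ) : ℤ)) ≡ (M : ℤ)
          [ZMOD (p : ℤ)] := by
        refine (h4.mul_left (s p)).trans ?_
        have g1 := (hs p hp hpR).mul_right (M : ℤ)
        rw [one_mul] at g1
        rwa [← mul_assoc]
      exact h5
  · -- the large primes
    have hpc : p ∈ P \ lo P Z := by
      rw [Finset.mem_sdiff, mem_lo]
      exact ⟨hp, fun h' => by linarith [h'.2]⟩
    have hf1 : ¬ p ∣ RR F k * M - h * (cs F k - cs F z.1) := by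
      by_contra hcon
      unfold fr at h1
      rw [if_neg (fun h' => h' p hpc hcon)] at h1
      norm_num at h1
    have hf2 : ¬ p ∣ RR F k * M - h * (cs F k - cs F z.2) := by
      by_contra hcon
      unfold fr at h2
      rw [if_neg (fun h' => h' p hpc hcon)] at h2
      norm_num at h2
    rcases hcen p hp hpZ with hc | hc
    · apply hf1
      rw [← hdn]
      apply Dvd.dvd.mul_left
      have : (p : ℤ) ∣ (n : ℤ) := by
        have g1 := Int.modEq_iff_dvd.1 hcong
        have := dvd_sub hc g1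
        simpa using this
      exact_mod_cast this
    · apply hf2
      have e3 : RR F k * M - h * (cs F k - cs F z.2) = d * (n + h) := by
        have g1 : h * (cs F k - cs F z.2) + h * cs F z.2 = h * cs F k := by
          rw [← Nat.mul_add, Nat.sub_add_cancel hle]
        have g2 : h * d + h * cs F z.1 = h * cs F z.2 := by
          rw [← Nat.mul_add, hd, Nat.sub_add_cancel hlt.le]
        have g3 : d * (n + h) = d * n + h * d := by ring
        omega
      rw [e3]
      apply Dvd.dvd.mul_left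
      have : (p : ℤ) ∣ ((n + h : ℕ) : ℤ) := by
        have g1 := Int.modEq_iff_dvd.1 hcong
        have g2 := dvd_sub hc g1
        have e : a p + (h : ℤ) - (a p - (n : ℤ)) = ((n + h : ℕ) : ℤ) := by
          push_cast
          ring
        rwa [e] at g2
      exact_mod_cast this

end Pool.Agent.Lib.TC93
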