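import Pool.Agent.Lib.TC93.F2

set_option autoImplicit false

/-!
The counting argument: conclusion.
-/

namespace Pool.Agent.Lib.TC93

open Finset Pool.Agent.Lib.MP_ba437d_nt Pool.Agent.Lib.OC93

/-- a sum of indicators is at most 1 unless two of them are 1 -/
theorem sum_le_pairs (k : ℕ) (v : ℕ → ℝ) (hv : ∀ i, v i = 0 ∨ v i = 1) :
    ∑ i ∈ range (k + 1), v i ≤ 1 + (k + 1) * ∑ z ∈ prs k,
      (if v z.1 = 1 ∧ v z.2 = 1 then (1 : ℝ) else 0) := by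
  classical
  have hnn : 0 ≤ ∑ z ∈ prs k, (if v z.1 = 1 ∧ v z.2 = 1 then (1 : ℝ) else 0) :=
    sum_nonneg fun _ _ => by split_ifs <;> norm_num
  have hv1 : ∀ i, v i ≤ 1 := fun i => by rcases hv i with h | h <;> rw [h] <;> norm_num
  have h1 : ∑ i ∈ range (k + 1), v i = (((range (k + 1)).filter (fun i => v i = 1)).card : ℝ) := by
    rw [card_filter]
    push_cast
    refine sum_congr rfl fun i _ => ?_
    rcases hv i with h | h
    · rw [h, if_neg (by norm_num)]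
    · rw [h, if_pos rfl]
  rcases Nat.lt_or_ge 1 ((range (k + 1)).filter (fun i => v i = 1)).card with hc | hc
  · obtain ⟨i, hi, j, hj, hij⟩ := one_lt_card.1 hc
    rw [mem_filter, mem_range] at hi hj
    have h2 : (1 : ℝ) ≤ ∑ z ∈ prs k, (if v z.1 = 1 ∧ v z.2 = 1 then (1 : ℝ) else 0) := by
      rcases Nat.lt_or_gt_of_ne hij with h | h
      · have hz : ((i, j) : ℕ × ℕ) ∈ prs k := mem_prs.2 ⟨h, by simp only; omega⟩
        calc (1 : ℝ) = if v ((i, j) : ℕ × ℕ).1 = 1 ∧ v ((i, j) : ℕ × ℕ).2 = 1 then (1 : ℝ) else 0 :=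
              (if_pos ⟨hi.2, hj.2⟩).symm
          _ ≤ _ := single_le_sum (f := fun z : ℕ × ℕ =>
              if v z.1 = 1 ∧ v z.2 = 1 then (1 : ℝ) else 0)
              (fun _ _ => by split_ifs <;> norm_num) hz
      · have hz : ((j, i) : ℕ × ℕ) ∈ prs k := mem_prs.2 ⟨h, by simp only; omega⟩
        calc (1 : ℝ) = if v ((j, i) : ℕ × ℕ).1 = 1 ∧ v ((j, i) : ℕ × ℕ).2 = 1 then (1 : ℝ) else 0 :=
              (if_pos ⟨hj.2, hi.2⟩).symm
          _ ≤ _ := single_le_sum (f := fun z : ℕ × ℕ =>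
              if v z.1 = 1 ∧ v z.2 = 1 then (1 : ℝ) else 0)
              (fun _ _ => by split_ifs <;> norm_num) hz
    have h3 : ∑ i ∈ range (k + 1), v i ≤ k + 1 := by
      calc ∑ i ∈ range (k + 1), v i ≤ ∑ i ∈ range (k + 1), (1 : ℝ) := sum_le_sum fun i _ => hv1 i
        _ = k + 1 := by rw [sum_const, card_range, nsmul_eq_mul, mul_one]; push_cast; ring
    have hk : (0 : ℝ) ≤ (k : ℝ) + 1 := by positivity
    nlinarith
  · have h2 : ∑ i ∈ range (k + 1), v i ≤ 1 := by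
      rw [h1]
      exact_mod_cast hc
    have : 0 ≤ ((k : ℝ) + 1) * ∑ z ∈ prs k,
        (if v z.1 = 1 ∧ v z.2 = 1 then (1 : ℝ) else 0) := by positivity
    linarith

/-- the conclusion of the counting argument -/
theorem core_fin (F k : ℕ) (hF : 0 < F) (P : Finset ℕ) (a : ℕ → ℤ) (Z : ℝ) (h X : ℕ)
    (s : ℕ → ℤ) (hP : ∀ p ∈ P, p.Prime)
    (hs : ∀ p ∈ P, ¬ p ∣ RR F k → s p * (RR F k : ℤ) ≡ 1 [ZMOD (p : ℤ)])
    (htiny : ∀ p ∈ P, p ∣ RR F k → ¬ (p : ℤ) ∣ a p + h ∧ (p ∣ F ∨ p ∣ h))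
    (hcen : ∀ p ∈ P, Z < (p : ℝ) → (p : ℤ) ∣ a p ∨ (p : ℤ) ∣ a p + h)
    (hhX : 2 * h ≤ F * X) (ρ δ : ℝ)
    (hδ : 3 ≤ (k + 1) * δ) (hρ : 0 ≤ ρ)
    (hdens : ∀ i, i ≤ k → δ * ρ * ((X / 2 : ℕ) : ℝ) ≤
      ∑ u ∈ Ioc (h * cs F i) (h * cs F i + X / 2),
        ff (BB F k a h s) ((lo P Z).filter (fun p => ¬ p ∣ RR F k)) (RR F k)
          (h * (cs F k - cs F i)) u * fr (P \ lo P Z) u)
    (htot : ∑ u ∈ Ioc (h * cs F k) (h * cs F k + X / 2),
        ff (BB F k a h s) ((lo P Z).filter (fun p => ¬ p ∣ RR F k)) (RR F k) 0 u ≤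
          2 * (ρ * ((X / 2 : ℕ) : ℝ))) :
    ρ * ((X / 2 : ℕ) : ℝ) ≤ (k + 1) ^ 3 * ((unc X a P).card : ℝ) := by
  classical
  have hR := RR_pos hF k
  set 𝓜 : Finset ℕ := MM (BB F k a h s) ((lo P Z).filter (fun p => ¬ p ∣ RR F k)) (RR F k)
    (h * cs F k) (X / 2) with h𝓜
  set φ : ℕ → ℕ → ℝ := fun i M => fr (P \ lo P Z) (RR F k * M - h * (cs F k - cs F i)) with hφ
  have hφv : ∀ M i, φ i M = 0 ∨ φ i M = 1 := by
    intro M i
    simp only [hφ]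
    unfold fr
    split_ifs
    · right; rfl
    · left; rfl
  have h1 : ∀ i, i ≤ k → δ * ρ * ((X / 2 : ℕ) : ℝ) ≤ ∑ M ∈ 𝓜, φ i M := by
    intro i hi
    have g1 := hdens i hi
    rw [sum_ff _ _ _ _ _ _ hR] at g1
    have e : h * cs F i + h * (cs F k - cs F i) = h * cs F k := by
      rw [← Nat.mul_add, Nat.add_sub_cancel' (cs_le hF hi)]
    rw [e] at g1
    exact g1
  have h2 : (𝓜.card : ℝ) ≤ 2 * (ρ * ((X / 2 : ℕ) : ℝ)) := by
    have g1 := sum_ff (BB F k a h s) ((lo P Z).filter (fun p => ¬ p ∣ RR F k)) (RR F k) 0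
      (h * cs F k) (X / 2) hR (fun _ => (1 : ℝ))
    simp only [mul_one, add_zero] at g1
    rw [g1, sum_const, nsmul_eq_mul, mul_one] at htot
    exact htot
  have h3 : (k + 1) * (δ * ρ * ((X / 2 : ℕ) : ℝ)) ≤ ∑ M ∈ 𝓜, ∑ i ∈ range (k + 1), φ i M := by
    rw [sum_comm]
    calc (k + 1) * (δ * ρ * ((X / 2 : ℕ) : ℝ)) =
        ∑ i ∈ range (k + 1), δ * ρ * ((X / 2 : ℕ) : ℝ) := by
          rw [sum_const, card_range, nsmul_eq_mul]
          push_cast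
          ring
      _ ≤ _ := sum_le_sum fun i hi => h1 i (by rw [mem_range] at hi; omega)
  have h4 : ∑ M ∈ 𝓜, ∑ i ∈ range (k + 1), φ i M ≤ 𝓜.card + (k + 1) *
      ∑ z ∈ prs k, ∑ M ∈ 𝓜, (if φ z.1 M = 1 ∧ φ z.2 M = 1 then (1 : ℝ) else 0) := by
    refine (sum_le_sum fun M _ => sum_le_pairs k (fun i => φ i M) (hφv M)).trans (le_of_eq ?_)
    rw [sum_add_distrib, sum_const, nsmul_eq_mul, mul_one, ← mul_sum, sum_comm]
  have h5 : ∀ z ∈ prs k, ∑ M ∈ 𝓜, (if φ z.1 M = 1 ∧ φ z.2 M = 1 then (1 : ℝ) else 0) ≤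
      ((unc X a P).card : ℝ) := by
    intro z hz
    rw [sum_ite, sum_const_zero, add_zero, sum_const, nsmul_eq_mul, mul_one, Nat.cast_le]
    apply card_le_card_of_injOn
      (fun M => (RR F k * M - h * (cs F k - cs F z.1)) / (cs F z.2 - cs F z.1))
    · intro M hM
      rw [mem_coe, mem_filter] at hM
      obtain ⟨hM1, hM2, hM3⟩ := hM
      exact (good F k hF P a Z h X s hP hs htiny hcen hhX z hz M hM1 hM2 hM3).2
    · intro M hM M' hM' heq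
      rw [mem_coe, mem_filter] at hM hM'
      obtain ⟨hM1, hM2, hM3⟩ := hM
      obtain ⟨hM1', hM2', hM3'⟩ := hM'
      have g1 := (good F k hF P a Z h X s hP hs htiny hcen hhX z hz M hM1 hM2 hM3).1
      have g2 := (good F k hF P a Z h X s hP hs htiny hcen hhX z hz M' hM1' hM2' hM3').1
      have g3 : RR F k * M - h * (cs F k - cs F z.1) = RR F k * M' - h * (cs F k - cs F z.1) := by
        rw [← Nat.mul_div_cancel' g1, ← Nat.mul_div_cancel' g2]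
        exact congrArg _ heq
      rw [h𝓜, mem_MM hR] at hM1 hM1'
      have hg : h * (cs F k - cs F z.1) ≤ h * cs F k := Nat.mul_le_mul_left _ (Nat.sub_le _ _)
      have g4 : RR F k * M = RR F k * M' := by omega
      exact Nat.eq_of_mul_eq_mul_left hR g4
  have h6 : ∑ z ∈ prs k, ∑ M ∈ 𝓜, (if φ z.1 M = 1 ∧ φ z.2 M = 1 then (1 : ℝ) else 0) ≤
      (k + 1) ^ 2 * ((unc X a P).card : ℝ) := by
    refine (sum_le_sum h5).trans ?_
    rw [sum_const, nsmul_eq_mul]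
    refine mul_le_mul_of_nonneg_right ?_ (by positivity)
    exact_mod_cast card_prs k
  have h7 : (0 : ℝ) ≤ ρ * ((X / 2 : ℕ) : ℝ) := by positivity
  have h8 : 3 * (ρ * ((X / 2 : ℕ) : ℝ)) ≤ (k + 1) * (δ * ρ * ((X / 2 : ℕ) : ℝ)) := by
    have e : (k + 1) * (δ * ρ * ((X / 2 : ℕ) : ℝ)) = ((k + 1) * δ) * (ρ * ((X / 2 : ℕ) : ℝ)) := by
      ring
    rw [e]
    exact mul_le_mul_of_nonneg_right hδ h7
  have h9 : ((k : ℝ) + 1) * ∑ z ∈ prs k, ∑ M ∈ 𝓜,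
      (if φ z.1 M = 1 ∧ φ z.2 M = 1 then (1 : ℝ) else 0) ≤
      (k + 1) * ((k + 1) ^ 2 * ((unc X a P).card : ℝ)) :=
    mul_le_mul_of_nonneg_left h6 (by positivity)
  have e : ((k : ℝ) + 1) ^ 3 * ((unc X a P).card : ℝ) =
      (k + 1) * ((k + 1) ^ 2 * ((unc X a P).card : ℝ)) := by ring
  rw [e]
  linarith

end Pool.Agent.Lib.TC93
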