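import Pool.Agent.Lib.TC93.F3
import Pool.Agent.Lib.TC93.D5

set_option autoImplicit false

/-!
Two centres, one of them the left end of the interval.
-/

namespace Pool.Agent.Lib.TC93

open Finset Filter Topology Pool.Agent.Lib.MP_ba437d_nt Pool.Agent.Lib.OC93

theorem inv_mod (R : ℕ) : ∃ s : ℕ → ℤ, ∀ p : ℕ, p.Prime → ¬ p ∣ R →
    s p * (R : ℤ) ≡ 1 [ZMOD (p : ℤ)] := by
  have h : ∀ p : ℕ, ∃ s : ℤ, p.Prime → ¬ p ∣ R → s * (R : ℤ) ≡ 1 [ZMOD (p : ℤ)] := by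
    intro p
    by_cases hp : p.Prime ∧ ¬ p ∣ R
    · obtain ⟨hpp, hpR⟩ := hp
      have hco : IsCoprime (p : ℤ) (R : ℤ) :=
        Nat.isCoprime_iff_coprime.2 ((Nat.Prime.coprime_iff_not_dvd hpp).2 hpR)
      obtain ⟨x, y, hxy⟩ := hco
      refine ⟨y, fun _ _ => ?_⟩
      rw [Int.modEq_iff_dvd]
      exact ⟨x, by linear_combination (-1 : ℤ) * hxy⟩
    · exact ⟨0, fun h1 h2 => absurd ⟨h1, h2⟩ hp⟩
  choose s hs using h
  exact ⟨s, hs⟩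

theorem half_ge (X : ℕ) (hX : 2 ≤ X) : (X : ℝ) / 3 ≤ ((X / 2 : ℕ) : ℝ) := by
  have h : X ≤ 3 * (X / 2) := by omega
  have : (X : ℝ) ≤ 3 * ((X / 2 : ℕ) : ℝ) := by exact_mod_cast h
  linarith

theorem core2 (K : ℝ) (C D₁ : ℕ) : ∃ (D : ℕ) (ε c : ℝ), 0 < ε ∧ 0 < c ∧ ∀ᶠ X : ℕ in atTop,
    ∀ (P : Finset ℕ) (a : ℕ → ℤ) (h : ℕ), (∀ p ∈ P, p.Prime) → ∑ p ∈ P, 1 / (p : ℝ) ≤ K →
      h ≤ C * X → (∀ p ∈ P, p ≤ D → ¬ (p : ℤ) ∣ a p + h ∧ (p ≤ D₁ ∨ p ∣ h)) →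
      (∀ p ∈ P, (X : ℝ) ^ ε < (p : ℝ) → (p : ℤ) ∣ a p ∨ (p : ℤ) ∣ a p + h) →
      c * X ≤ ((unc X a P).card : ℝ) := by
  classical
  obtain ⟨δ, ε₁, hδ, hε₁, hCl⟩ := Cl_all K
  set ε₂ : ℝ := min ε₁ 1 with hε₂
  have hε₂0 : 0 < ε₂ := lt_min hε₁ one_pos
  have hε₂1 : ε₂ ≤ 1 := min_le_right _ _
  obtain ⟨k, hk⟩ : ∃ k : ℕ, 3 ≤ ((k : ℝ) + 1) * δ := by
    obtain ⟨k, hk⟩ := exists_nat_gt (3 / δ)
    refine ⟨k, ?_⟩
    rw [div_lt_iff₀ hδ] at hk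
    nlinarith
  set κ : ℕ := (k + 1) ^ 2 with hκ
  have hκ1 : 1 ≤ κ := Nat.one_le_pow _ _ (by omega)
  set F : ℕ := (2 * κ + D₁).factorial * (2 * C + 1) with hF
  have hF0 : 0 < F := Nat.mul_pos (Nat.factorial_pos _) (by omega)
  have hFC : 2 * C ≤ F := by
    have : 1 * (2 * C + 1) ≤ (2 * κ + D₁).factorial * (2 * C + 1) :=
      Nat.mul_le_mul_right _ (Nat.factorial_pos _)
    omega
  set R : ℕ := RR F k with hR
  have hR0 : 0 < R := RR_pos hF0 k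
  have hRr : (0 : ℝ) < R := by exact_mod_cast hR0
  have hR1 : (1 : ℝ) ≤ R := by exact_mod_cast hR0
  have hbig : ∀ p : ℕ, p.Prime → ¬ p ∣ R → 2 * κ < p := by
    intro p hp hpR
    by_contra hcon
    push Not at hcon
    apply hpR
    have h1 : p ∣ (2 * κ + D₁).factorial := (hp.dvd_factorial).2 (by omega)
    exact (h1.mul_right _).trans (F_dvd_RR F k)
  set K₂ : ℝ := κ * max K 0 with hK₂
  have hK₂0 : 0 ≤ K₂ := by positivity
  set V₀ : ℝ := Real.exp (-(Real.log 4 * K₂)) with hV₀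
  have hV₀0 : 0 < V₀ := Real.exp_pos _
  have hV₀1 : V₀ ≤ 1 := by
    rw [hV₀, Real.exp_le_one_iff]
    have h1 : 0 ≤ Real.log 4 := Real.log_nonneg (by norm_num)
    nlinarith
  have hρ₀ : 0 < V₀ / R := by positivity
  have hρ₀1 : V₀ / R ≤ 1 := by
    rw [div_le_one hRr]
    linarith
  obtain ⟨θ, hθ, hCl⟩ := hCl (V₀ / R) hρ₀ hρ₀1
  obtain ⟨X₁, hX₁⟩ := eventually_atTop.1 (hCl (3 * C * cs F k))
  set θ₁ : ℝ := min θ 1 with hθ₁
  have hθ₁0 : 0 < θ₁ := lt_min hθ one_pos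
  obtain ⟨r, hr⟩ := ((tau_tendsto K₂).eventually_le_const
    (show (0 : ℝ) < ε₂ * V₀ / 4 by positivity)).exists
  set s : ℝ := θ₁ / (4 * (r + 1)) with hs
  have hs0 : 0 < s := by positivity
  obtain ⟨iv, hiv⟩ := inv_mod R
  refine ⟨R, s, V₀ / R / (3 * (k + 1) ^ 3), hs0, by positivity, ?_⟩
  filter_upwards [eventually_ge_atTop (2 * X₁ + 9), pow_big s hs0 R,
    pow_big (θ₁ / 4) (by positivity) ((r + 4) * κ ^ (r + 1) * (2 * R) / (ε₂ * V₀))]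
    with X hX hXR hXb P a h hP hPK hh htiny hcen
  have hX9 : 9 ≤ X := by omega
  have hXr : (0 : ℝ) < X := by
    have : (9 : ℝ) ≤ X := by exact_mod_cast hX9
    linarith
  have hXr1 : (1 : ℝ) ≤ X := by
    have : (9 : ℝ) ≤ X := by exact_mod_cast hX9
    linarith
  have hX2 := half_ge X (by omega)
  have hXX₁ : X₁ ≤ X / 2 := by omega
  have hX21 : (1 : ℝ) ≤ ((X / 2 : ℕ) : ℝ) := by
    have : 1 ≤ X / 2 := by omega
    exact_mod_cast this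
  have hK0 : 0 ≤ K := le_trans (sum_nonneg fun p _ => by positivity) hPK
  -- powers
  have hsq : (X : ℝ) ^ (θ₁ / 2) ≤ ((X / 2 : ℕ) : ℝ) ^ θ₁ := by
    have g1 : (X : ℝ) ^ ((1 : ℝ) / 2) ≤ ((X / 2 : ℕ) : ℝ) := by
      refine le_trans ?_ hX2
      rw [← Real.sqrt_eq_rpow]
      have g2 : 3 ≤ Real.sqrt X := by
        apply Real.le_sqrt_of_sq_le
        have : (9 : ℝ) ≤ X := by exact_mod_cast hX9
        linarith
      have g3 : Real.sqrt X * Real.sqrt X = X := Real.mul_self_sqrt hXr.le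
      have g4 : 3 * Real.sqrt X ≤ Real.sqrt X * Real.sqrt X :=
        mul_le_mul_of_nonneg_right g2 (Real.sqrt_nonneg _)
      linarith
    calc (X : ℝ) ^ (θ₁ / 2) = ((X : ℝ) ^ ((1 : ℝ) / 2)) ^ θ₁ := by
          rw [← Real.rpow_mul hXr.le]
          congr 1
          ring
      _ ≤ _ := Real.rpow_le_rpow (by positivity) g1 hθ₁0.le
  have hsθ : s ≤ θ₁ / 4 := by
    rw [hs]
    apply div_le_div_of_nonneg_left hθ₁0.le (by norm_num)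
    have : (0 : ℝ) ≤ r := by positivity
    linarith
  have hZ1 : 1 ≤ (X : ℝ) ^ s := Real.one_le_rpow hXr1 hs0.le
  have hZX₀ : (X : ℝ) ^ s ≤ ((X / 2 : ℕ) : ℝ) ^ θ₁ := by
    refine le_trans ?_ hsq
    exact Real.rpow_le_rpow_of_exponent_le hXr1 (by linarith)
  have hZr : ((X : ℝ) ^ s) ^ (r + 1) = (X : ℝ) ^ (θ₁ / 4) := by
    rw [← Real.rpow_natCast, ← Real.rpow_mul hXr.le]
    congr 1
    rw [hs]
    push_cast
    field_simp
  have hX₀θ : ((X / 2 : ℕ) : ℝ) ^ θ₁ ≤ ((X / 2 : ℕ) : ℝ) ^ θ :=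
    Real.rpow_le_rpow_of_exponent_le hX21 (min_le_left _ _)
  have hX₀1 : ((X / 2 : ℕ) : ℝ) ^ θ₁ ≤ ((X / 2 : ℕ) : ℝ) := by
    calc ((X / 2 : ℕ) : ℝ) ^ θ₁ ≤ ((X / 2 : ℕ) : ℝ) ^ (1 : ℝ) :=
          Real.rpow_le_rpow_of_exponent_le hX21 (min_le_right _ _)
      _ = _ := Real.rpow_one _
  set Z : ℝ := (X : ℝ) ^ s with hZ
  set P₀ : Finset ℕ := (lo P Z).filter (fun p => ¬ p ∣ R) with hP₀
  set B : ℕ → Finset ℤ := BB F k a h iv with hB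
  have hP₀m : ∀ p ∈ P₀, p ∈ P ∧ p.Prime ∧ (p : ℝ) ≤ Z ∧ ¬ p ∣ R ∧ 2 * κ < p := by
    intro p hp
    rw [hP₀, mem_filter, mem_lo] at hp
    exact ⟨hp.1.1, hP p hp.1.1, hp.1.2, hp.2, hbig p (hP p hp.1.1) hp.2⟩
  have hBc : ∀ p, ((B p).card : ℝ) ≤ κ := fun p => by exact_mod_cast BB_card F k a h iv p
  have hw : ∀ p ∈ P₀, ((B p).card : ℝ) / p ≤ κ * (1 / (p : ℝ)) := by
    intro p _
    rw [mul_one_div]
    exact div_le_div_of_nonneg_right (hBc p) (by positivity)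
  have hw2 : ∀ p ∈ P₀, ((B p).card : ℝ) / p ≤ 1 / 2 := by
    intro p hp
    obtain ⟨_, hpp, _, _, hpκ⟩ := hP₀m p hp
    have hp0 : (0 : ℝ) < p := by exact_mod_cast hpp.pos
    refine (hw p hp).trans ?_
    rw [mul_one_div, div_le_iff₀ hp0]
    have : (2 : ℝ) * κ ≤ p := by exact_mod_cast hpκ.le
    linarith
  have hwK : ∑ p ∈ P₀, ((B p).card : ℝ) / p ≤ K₂ := by
    refine (sum_le_sum hw).trans ?_
    rw [← mul_sum, hK₂]
    refine mul_le_mul_of_nonneg_left ?_ (by positivity)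
    refine le_trans ?_ (le_max_left _ _)
    exact (sum_sub_le fun p hp => (hP₀m p hp).1).trans hPK
  have hcard : (P₀.card : ℝ) ≤ Z := by
    have h1 : P₀ ⊆ Icc 1 ⌊Z⌋₊ := by
      intro p hp
      obtain ⟨_, hpp, hpZ, _, _⟩ := hP₀m p hp
      rw [mem_Icc]
      exact ⟨hpp.one_le, Nat.le_floor hpZ⟩
    have h2 := card_le_card h1
    rw [Nat.card_Icc, Nat.add_sub_cancel] at h2
    calc (P₀.card : ℝ) ≤ (⌊Z⌋₊ : ℝ) := by exact_mod_cast h2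
      _ ≤ Z := Nat.floor_le (by linarith)
  have hκr : (1 : ℝ) ≤ κ := by exact_mod_cast hκ1
  have hY1 : 1 ≤ (κ : ℝ) * Z := by nlinarith
  have hPY : ∑ p ∈ P₀, ((B p).card : ℝ) ≤ κ * Z := by
    refine (sum_le_sum fun p _ => hBc p).trans ?_
    rw [sum_const, nsmul_eq_mul, mul_comm]
    exact mul_le_mul_of_nonneg_left hcard (by positivity)
  have hVge : V₀ ≤ ∏ p ∈ P₀, (1 - ((B p).card : ℝ) / p) :=
    prod_ge_w (w := fun p => ((B p).card : ℝ) / p) (fun p => by positivity) P₀ hw2 hwK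
  set V : ℝ := ∏ p ∈ P₀, (1 - ((B p).card : ℝ) / p) with hV
  have hV0 : 0 < V := lt_of_lt_of_le hV₀0 hVge
  have hX₀b : (r + 4) * (κ * Z) ^ (r + 1) ≤ ε₂ * V₀ * ((X / 2 : ℕ) : ℝ) ^ θ₁ / (2 * R) := by
    rw [mul_pow, hZr, le_div_iff₀ (by positivity)]
    rw [div_le_iff₀ (by positivity)] at hXb
    have g1 : (X : ℝ) ^ (θ₁ / 2) = (X : ℝ) ^ (θ₁ / 4) * (X : ℝ) ^ (θ₁ / 4) := by
      rw [← Real.rpow_add hXr]
      congr 1
      ring
    have g2 : 0 ≤ (X : ℝ) ^ (θ₁ / 4) := by positivity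
    have g3 : (r + 4) * (κ : ℝ) ^ (r + 1) * (2 * R) * (X : ℝ) ^ (θ₁ / 4) ≤
        (X : ℝ) ^ (θ₁ / 4) * (ε₂ * V₀) * (X : ℝ) ^ (θ₁ / 4) :=
      mul_le_mul_of_nonneg_right hXb g2
    have g4 : ε₂ * V₀ * (X : ℝ) ^ (θ₁ / 2) ≤ ε₂ * V₀ * ((X / 2 : ℕ) : ℝ) ^ θ₁ :=
      mul_le_mul_of_nonneg_left hsq (by positivity)
    rw [g1] at g4
    linarith
  have hlev : ∀ g : ℕ, Lev (ff B P₀ R g) (V / R) Z (((X / 2 : ℕ) : ℝ) ^ θ₁) ε₂ := by
    intro g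
    exact ff_lev B P₀ R g Z (((X / 2 : ℕ) : ℝ) ^ θ₁) ε₂ K₂ (κ * Z) V₀ r hR0 hXR
      (fun p hp => ⟨(hP₀m p hp).2.1, (hP₀m p hp).2.2.1,
        BB_mem F k a h iv (hP₀m p hp).2.1.pos, hw2 p hp⟩)
      hwK hY1 hPY hε₂1 hε₂0 hV₀0 hVge (by linarith) hX₀b
  have hρge : V₀ / R ≤ V / R := div_le_div_of_nonneg_right hVge hRr.le
  have hρ0 : 0 < V / R := by positivity
  have key := core_fin F k hF0 P a Z h X iv hP (fun p hp hpR => hiv p (hP p hp) hpR)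
    (fun p hp hpR => by
      obtain ⟨g1, g2⟩ := htiny p hp (Nat.le_of_dvd hR0 hpR)
      refine ⟨g1, g2.imp (fun g => ?_) id⟩
      have g3 : p ∣ (2 * κ + D₁).factorial := ((hP p hp).dvd_factorial).2 (by omega)
      exact g3.mul_right _) hcen (by
      calc 2 * h ≤ 2 * (C * X) := Nat.mul_le_mul_left _ hh
        _ = (2 * C) * X := by ring
        _ ≤ F * X := Nat.mul_le_mul_right _ hFC) (V / R) δ hk hρ0.le
    (fun i hi => by
      have hb : h * cs F i ≤ 3 * C * cs F k * (X / 2) := by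
        have g1 : X ≤ 3 * (X / 2) := by omega
        calc h * cs F i ≤ (C * (3 * (X / 2))) * cs F k :=
              Nat.mul_le_mul (hh.trans (Nat.mul_le_mul_left _ g1)) (cs_le hF0 hi)
          _ = _ := by ring
      exact hX₁ (X / 2) hXX₁ (ff B P₀ R (h * (cs F k - cs F i))) (V / R) Z (P \ lo P Z)
        (h * cs F i) hρge (fun n => ff_bd _ _ _ _ n) (hZX₀.trans hX₀θ)
        ((hlev _).mono (by positivity) hX₀θ (min_le_left _ _) hρ0.le)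
        (fun p hp => by
          rw [Finset.mem_sdiff, mem_lo] at hp
          refine ⟨hP p hp.1, ?_⟩
          by_contra hcon
          push Not at hcon
          exact hp.2 ⟨hp.1, hcon⟩)
        ((sum_sub_le sdiff_subset).trans hPK) hb)
    (by
      have g1 := hlev 0 1 (rough_one Z) (h * cs F k) (h * cs F k + X / 2) (by
        push_cast
        linarith)
      simp only [one_mul] at g1
      have g2 := (abs_le.1 g1).2
      have e : (((h * cs F k + X / 2 : ℕ) : ℝ)) - ((h * cs F k : ℕ) : ℝ) = ((X / 2 : ℕ) : ℝ) := by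
        push_cast
        ring
      rw [e] at g2
      have g3 : ε₂ * (V / R * ((X / 2 : ℕ) : ℝ)) ≤ 1 * (V / R * ((X / 2 : ℕ) : ℝ)) :=
        mul_le_mul_of_nonneg_right hε₂1 (by positivity)
      linarith)
  have h1 : V₀ / R * (X / 3) ≤ V / R * ((X / 2 : ℕ) : ℝ) :=
    mul_le_mul hρge hX2 (by positivity) hρ0.le
  have hk3 : (0 : ℝ) < (k + 1) ^ 3 := by positivity
  have h2 : V₀ / R / (3 * (k + 1) ^ 3) * X = V₀ / R * (X / 3) / (k + 1) ^ 3 := by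
    field_simp
  rw [h2, div_le_iff₀ hk3]
  linarith

end Pool.Agent.Lib.TC93
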