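import Pool.Agent.Lib.TC93.F4

set_option autoImplicit false

/-!
Two centres.
-/

namespace Pool.Agent.Lib.TC93

open Finset Filter Topology Pool.Agent.Lib.MP_ba437d_nt Pool.Agent.Lib.OC93

/-- the exceptional primes -/
noncomputable def exc (P : Finset ℕ) (a : ℕ → ℤ) (N₁ N₂ : ℤ) (t : ℝ) : Finset ℕ := by
  classical
  exact P.filter (fun p : ℕ => t < (p : ℝ) ∧ ¬ a p ≡ N₁ [ZMOD (p : ℤ)] ∧
    ¬ a p ≡ N₂ [ZMOD (p : ℤ)])

theorem mem_exc {P : Finset ℕ} {a : ℕ → ℤ} {N₁ N₂ : ℤ} {t : ℝ} {p : ℕ} :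
    p ∈ exc P a N₁ N₂ t ↔ p ∈ P ∧ t < (p : ℝ) ∧ ¬ a p ≡ N₁ [ZMOD (p : ℤ)] ∧
      ¬ a p ≡ N₂ [ZMOD (p : ℤ)] := by
  unfold exc
  rw [mem_filter]

/-- comparison of the uncovered integers -/
theorem compare (x X : ℕ) (P : Finset ℕ) (a : ℕ → ℤ) (N₁ N₂ : ℤ) (t κ : ℝ)
    (hP : ∀ p ∈ P, p.Prime ∧ p ≤ x) (hX : X ≤ x) (hNX : N₂ + X ≤ x) (hN : -(κ * x) ≤ (N₂ : ℝ))
    (hκ : 0 ≤ κ) (hm : ∑ p ∈ exc P a N₁ N₂ t, 1 / (p : ℝ) ≤ κ) :
    ((unc X (fun p => a p - N₂) (P \ exc P a N₁ N₂ t)).card : ℝ) ≤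
      ((unc x a P).card : ℝ) + 3 * κ * x := by
  classical
  set Q : Finset ℕ := exc P a N₁ N₂ t with hQ
  have hQP : ∀ p ∈ Q, p.Prime ∧ p ≤ x := fun p hp => hP p (mem_exc.1 hp).1
  have h1 : unc X (fun p => a p - N₂) (P \ Q) ⊆ (unc x a P).image (fun n : ℕ => ((n : ℤ) - N₂).toNat) ∪
      (Icc 1 (-N₂).toNat ∪ Q.biUnion (fun p => cl X (fun p => a p - N₂) {p})) := by
    intro n hn
    unfold unc at hn
    rw [mem_filter, mem_Icc] at hn
    obtain ⟨⟨hn1, hn2⟩, hn3⟩ := hn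
    rw [mem_union, mem_union]
    rcases le_or_gt (N₂ + n) 0 with h0 | h0
    · right; left
      rw [mem_Icc]
      omega
    · by_cases hc : ∃ p ∈ Q, (n : ℤ) ≡ a p - N₂ [ZMOD (p : ℤ)]
      · obtain ⟨p, hp, hpn⟩ := hc
        right; right
        rw [mem_biUnion]
        refine ⟨p, hp, ?_⟩
        unfold cl
        rw [mem_filter, mem_Icc]
        refine ⟨⟨hn1, hn2⟩, fun p' hp' => ?_⟩
        rw [mem_singleton] at hp'
        rw [hp']
        exact hpn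
      · push Not at hc
        left
        rw [mem_image]
        have e : (((N₂ + n).toNat : ℕ) : ℤ) = N₂ + n := Int.toNat_of_nonneg h0.le
        refine ⟨(N₂ + n).toNat, ?_, ?_⟩
        · unfold unc
          rw [mem_filter, mem_Icc]
          refine ⟨⟨by omega, by omega⟩, fun p hp hpn => ?_⟩
          rw [e] at hpn
          have h2 : (n : ℤ) ≡ a p - N₂ [ZMOD (p : ℤ)] := by
            have := hpn.sub_right N₂
            rwa [add_sub_cancel_left] at this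
          by_cases hpQ : p ∈ Q
          · exact hc p hpQ h2
          · exact hn3 p (Finset.mem_sdiff.2 ⟨hp, hpQ⟩) h2
        · rw [e, add_sub_cancel_left]
          exact Int.toNat_natCast n
  have h2 := card_le_card h1
  have h3 : (unc X (fun p => a p - N₂) (P \ Q)).card ≤ (unc x a P).card + ((-N₂).toNat +
      ∑ p ∈ Q, (cl X (fun p => a p - N₂) {p}).card) := by
    refine h2.trans ((card_union_le _ _).trans (Nat.add_le_add card_image_le
      ((card_union_le _ _).trans (Nat.add_le_add ?_ card_biUnion_le))))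
    rw [Nat.card_Icc, Nat.add_sub_cancel]
  have h4 : (((-N₂).toNat : ℕ) : ℝ) ≤ κ * x := by
    rcases le_total 0 (-N₂) with h | h
    · have e : (((-N₂).toNat : ℕ) : ℤ) = -N₂ := Int.toNat_of_nonneg h
      have e2 : (((-N₂).toNat : ℕ) : ℝ) = -(N₂ : ℝ) := by exact_mod_cast e
      rw [e2]
      linarith
    · rw [Int.toNat_of_nonpos h, Nat.cast_zero]
      positivity
  have h5 : (∑ p ∈ Q, ((cl X (fun p => a p - N₂) {p}).card : ℝ)) ≤ 2 * x * κ := by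
    calc (∑ p ∈ Q, ((cl X (fun p => a p - N₂) {p}).card : ℝ)) ≤ ∑ p ∈ Q, 2 * x * (1 / (p : ℝ)) := by
          refine sum_le_sum fun p hp => ?_
          obtain ⟨hpp, hpx⟩ := hQP p hp
          have hp0 : (0 : ℝ) < p := by exact_mod_cast hpp.pos
          have h5 := (abs_le.1 (cl_card X (fun p => a p - N₂) {p} (fun p' h' => by
            rw [mem_singleton] at h'
            rw [h']
            exact hpp))).2
          have h6 : W ({p} : Finset ℕ) = 1 / (p : ℝ) := by unfold W; simp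
          rw [h6] at h5
          have h7 : (1 : ℝ) ≤ x * (1 / (p : ℝ)) := by
            rw [mul_one_div, le_div_iff₀ hp0, one_mul]
            exact_mod_cast hpx
          have h8 : (X : ℝ) * (1 / (p : ℝ)) ≤ x * (1 / (p : ℝ)) :=
            mul_le_mul_of_nonneg_right (by exact_mod_cast hX) (by positivity)
          linarith
      _ = 2 * x * ∑ p ∈ Q, 1 / (p : ℝ) := by rw [mul_sum]
      _ ≤ 2 * x * κ := mul_le_mul_of_nonneg_left hm (by positivity)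
  have h6 : ((unc X (fun p => a p - N₂) (P \ Q)).card : ℝ) ≤ ((unc x a P).card : ℝ) +
      ((((-N₂).toNat : ℕ) : ℝ) + ∑ p ∈ Q, ((cl X (fun p => a p - N₂) {p}).card : ℝ)) := by
    exact_mod_cast h3
  linarith

/-- the near centre on the left -/
theorem side (K C δ : ℝ) (hδ : 0 < δ) (D₁ : ℕ) : ∃ (D : ℕ) (ε κ c : ℝ), 0 < ε ∧ 0 < κ ∧ 0 < c ∧
    ∀ᶠ x : ℕ in atTop, ∀ (P : Finset ℕ) (a : ℕ → ℤ) (N₁ N₂ : ℤ),
      (∀ p ∈ P, p.Prime ∧ p ≤ x) → ∑ p ∈ P, 1 / (p : ℝ) ≤ K → |(N₁ : ℝ)| ≤ C * x →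
      N₁ ≤ N₂ → -(κ * x) ≤ (N₂ : ℝ) → (N₂ : ℝ) ≤ (1 - δ) * x →
      (∀ p ∈ P, p ≤ D → ¬ a p ≡ N₁ [ZMOD (p : ℤ)] ∧ (p ≤ D₁ ∨ (p : ℤ) ∣ N₁ - N₂)) →
      ∑ p ∈ exc P a N₁ N₂ ((x : ℝ) ^ ε), 1 / (p : ℝ) ≤ κ →
      c * x ≤ ((unc x a P).card : ℝ) := by
  classical
  set δ₁ : ℝ := min δ (1 / 2) with hδ₁
  have hδ₁0 : 0 < δ₁ := lt_min hδ (by norm_num)
  have hδ₁1 : δ₁ ≤ 1 / 2 := min_le_right _ _
  set C' : ℕ := ⌈(|C| + 1) * (2 / δ₁)⌉₊ with hC'
  have hC'2 : (|C| + 1) * (2 / δ₁) ≤ C' := Nat.le_ceil _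
  obtain ⟨D, ε', c', hε', hc', hcore⟩ := core2 K C' D₁
  obtain ⟨X₁, hX₁⟩ := eventually_atTop.1 hcore
  refine ⟨D, ε' / 2, c' * δ₁ / 12, c' * δ₁ / 4, by positivity, by positivity, by positivity, ?_⟩
  filter_upwards [eventually_ge_atTop 1, pow_big 1 one_pos ((X₁ + 1) / δ₁),
    pow_big 1 one_pos (2 / δ₁), pow_big (1 / 2) (by norm_num) (2 / δ₁)]
    with x hx1 hxX hxδ hxs P a N₁ N₂ hP hPK hN₁ hN12 hN₂ hN₂' htiny hm
  rw [Real.rpow_one, div_le_iff₀ hδ₁0] at hxX hxδ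
  have hxr1 : (1 : ℝ) ≤ x := by exact_mod_cast hx1
  have hxr : (0 : ℝ) < x := by linarith
  set X : ℕ := ⌊δ₁ * x⌋₊ with hX
  have hXle : (X : ℝ) ≤ δ₁ * x := Nat.floor_le (by positivity)
  have hXge : δ₁ * x - 1 ≤ X := by
    have := Nat.lt_floor_add_one (δ₁ * (x : ℝ))
    rw [← hX] at this
    linarith
  have hXge2 : δ₁ * x / 2 ≤ X := by linarith
  have hXX₁ : X₁ ≤ X := by
    have : (X₁ : ℝ) ≤ X := by linarith
    exact_mod_cast this
  have hXx : X ≤ x := by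
    have h1 : δ₁ * x ≤ 1 / 2 * x := mul_le_mul_of_nonneg_right hδ₁1 hxr.le
    have : (X : ℝ) ≤ x := by linarith
    exact_mod_cast this
  have hNX : N₂ + X ≤ x := by
    have h1 : (N₂ : ℝ) ≤ (1 - δ₁) * x := hN₂'.trans (mul_le_mul_of_nonneg_right
      (by linarith [min_le_left δ (1 / 2)]) hxr.le)
    have : ((N₂ + X : ℤ) : ℝ) ≤ ((x : ℤ) : ℝ) := by
      push_cast
      linarith
    exact_mod_cast this
  set h : ℕ := (N₂ - N₁).toNat with hh
  have hhz : (h : ℤ) = N₂ - N₁ := Int.toNat_of_nonneg (by omega)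
  have hhr : (h : ℝ) = (N₂ : ℝ) - N₁ := by exact_mod_cast hhz
  have hhC : h ≤ C' * X := by
    have h1 : (N₂ : ℝ) ≤ x := by
      have : (1 - δ) * x ≤ 1 * x := mul_le_mul_of_nonneg_right (by linarith) hxr.le
      linarith
    have h2 : -(|C| * x) ≤ (N₁ : ℝ) := by
      have g1 := (abs_le.1 hN₁).1
      have g2 : C * x ≤ |C| * x := mul_le_mul_of_nonneg_right (le_abs_self C) hxr.le
      linarith
    have h3 : (h : ℝ) ≤ (|C| + 1) * x := by
      rw [hhr]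
      linarith
    have h4 : (x : ℝ) ≤ 2 / δ₁ * X := by
      rw [div_mul_eq_mul_div, le_div_iff₀ hδ₁0]
      linarith
    have hC0 : 0 ≤ |C| + 1 := by positivity
    have h5 : (h : ℝ) ≤ ((C' * X : ℕ) : ℝ) := by
      push_cast
      calc (h : ℝ) ≤ (|C| + 1) * x := h3
        _ ≤ (|C| + 1) * (2 / δ₁ * X) := mul_le_mul_of_nonneg_left h4 hC0
        _ = ((|C| + 1) * (2 / δ₁)) * X := by ring
        _ ≤ C' * X := mul_le_mul_of_nonneg_right hC'2 (by positivity)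
    exact_mod_cast h5
  have hpow : (x : ℝ) ^ (ε' / 2) ≤ (X : ℝ) ^ ε' := by
    have g1 : (x : ℝ) ^ ((1 : ℝ) / 2) ≤ (X : ℝ) := by
      refine le_trans ?_ hXge2
      rw [div_le_iff₀ hδ₁0] at hxs
      have g2 : (x : ℝ) ^ ((1 : ℝ) / 2) * (x : ℝ) ^ ((1 : ℝ) / 2) = x := by
        rw [← Real.rpow_add hxr]
        norm_num
      have g3 : 0 ≤ (x : ℝ) ^ ((1 : ℝ) / 2) := by positivity
      nlinarith
    calc (x : ℝ) ^ (ε' / 2) = ((x : ℝ) ^ ((1 : ℝ) / 2)) ^ ε' := by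
          rw [← Real.rpow_mul hxr.le]
          congr 1
          ring
      _ ≤ _ := Real.rpow_le_rpow (by positivity) g1 hε'.le
  set Q : Finset ℕ := exc P a N₁ N₂ ((x : ℝ) ^ (ε' / 2)) with hQ
  have key := hX₁ X hXX₁ (P \ Q) (fun p => a p - N₂) h
    (fun p hp => (hP p (Finset.mem_sdiff.1 hp).1).1)
    ((sum_sub_le sdiff_subset).trans hPK) hhC
    (fun p hp hpD => by
      obtain ⟨h2, h1⟩ := htiny p (Finset.mem_sdiff.1 hp).1 hpD
      refine ⟨fun h3 => ?_, h1.imp id fun h4 => ?_⟩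
      · apply h2
        have e : a p - N₂ + (h : ℤ) = a p - N₁ := by
          rw [hhz]
          ring
        rw [e] at h3
        exact (Int.modEq_iff_dvd.2 h3).symm
      · have h3 : (p : ℤ) ∣ (h : ℤ) := by
          rw [hhz, ← neg_sub]
          exact (dvd_neg).2 h4
        exact_mod_cast h3)
    (fun p hp hpX => by
      rw [Finset.mem_sdiff] at hp
      obtain ⟨hp1, hp2⟩ := hp
      by_cases c1 : a p ≡ N₂ [ZMOD (p : ℤ)]
      · left
        have := Int.modEq_iff_dvd.1 c1.symm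
        exact this
      · by_cases c2 : a p ≡ N₁ [ZMOD (p : ℤ)]
        · right
          have h3 := Int.modEq_iff_dvd.1 c2.symm
          have e : a p - N₂ + (h : ℤ) = a p - N₁ := by
            rw [hhz]
            ring
          rw [e]
          exact h3
        · exact absurd (mem_exc.2 ⟨hp1, lt_of_le_of_lt hpow hpX, c2, c1⟩) hp2)
  have hκ0 : 0 ≤ c' * δ₁ / 12 := by positivity
  have h2 := compare x X P a N₁ N₂ ((x : ℝ) ^ (ε' / 2)) (c' * δ₁ / 12) hP hXx hNX hN₂ hκ0 hm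
  have h3 : c' * (δ₁ * x / 2) ≤ c' * X := mul_le_mul_of_nonneg_left hXge2 hc'.le
  linarith

end Pool.Agent.Lib.TC93
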