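import Pool.Agent.Lib.TC93.G1

set_option autoImplicit false

/-!
Two centres: both orientations.
-/

namespace Pool.Agent.Lib.TC93

open Finset Filter Topology Pool.Agent.Lib.MP_ba437d_nt Pool.Agent.Lib.OC93

theorem refl_modEq (x : ℕ) (u v : ℤ) (p : ℕ) :
    ((x : ℤ) + 1 - u ≡ (x : ℤ) + 1 - v [ZMOD (p : ℤ)]) ↔ (u ≡ v [ZMOD (p : ℤ)]) := by
  constructor
  · intro h
    have := (h.sub_left ((x : ℤ) + 1))
    rwa [sub_sub_cancel, sub_sub_cancel] at this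
  · intro h
    exact h.sub_left _

theorem unc_refl (x : ℕ) (P : Finset ℕ) (a : ℕ → ℤ) :
    (unc x (fun p => (x : ℤ) + 1 - a p) P).card ≤ (unc x a P).card := by
  apply card_le_card_of_injOn (fun n => x + 1 - n)
  · intro n hn
    rw [mem_coe] at hn
    have key : x + 1 - n ∈ unc x a P := by
      unfold unc at hn ⊢
      rw [mem_filter, mem_Icc] at hn ⊢
      obtain ⟨⟨h1, h2⟩, h3⟩ := hn
      refine ⟨⟨by omega, by omega⟩, fun p hp hpn => h3 p hp ?_⟩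
      have e : ((x + 1 - n : ℕ) : ℤ) = (x : ℤ) + 1 - n := by
        rw [Nat.cast_sub (by omega)]
        push_cast
        ring
      rw [e] at hpn
      have := (refl_modEq x ((x : ℤ) + 1 - n) (a p) p).2 hpn
      rwa [sub_sub_cancel] at this
    exact key
  · intro n hn n' hn' h
    rw [mem_coe] at hn hn'
    unfold unc at hn hn'
    rw [mem_filter, mem_Icc] at hn hn'
    simp only at h
    omega

/-- The theorem. -/
theorem two (K C δ : ℝ) (hδ : 0 < δ) (D₁ : ℕ) : ∃ (D : ℕ) (ε κ c : ℝ), 0 < ε ∧ 0 < κ ∧ 0 < c ∧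
    ∀ᶠ x : ℕ in atTop, ∀ (P : Finset ℕ) (a : ℕ → ℤ) (N₁ N₂ : ℤ),
      (∀ p ∈ P, p.Prime ∧ p ≤ x) → ∑ p ∈ P, 1 / (p : ℝ) ≤ K → |(N₁ : ℝ)| ≤ C * x →
      (N₁ ≤ N₂ ∧ -(κ * x) ≤ (N₂ : ℝ) ∧ (N₂ : ℝ) ≤ (1 - δ) * x ∨
        N₂ ≤ N₁ ∧ δ * x ≤ (N₂ : ℝ) ∧ (N₂ : ℝ) ≤ (1 + κ) * x) →
      (∀ p ∈ P, p ≤ D → ¬ a p ≡ N₁ [ZMOD (p : ℤ)] ∧ (p ≤ D₁ ∨ (p : ℤ) ∣ N₁ - N₂)) →
      ∑ p ∈ exc P a N₁ N₂ ((x : ℝ) ^ ε), 1 / (p : ℝ) ≤ κ →
      c * x ≤ ((unc x a P).card : ℝ) := by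
  classical
  obtain ⟨D, ε, κ, c, hε, hκ, hc, h⟩ := side K (|C| + 2) (δ / 2) (by linarith) D₁
  refine ⟨D, ε, κ, c, hε, hκ, hc, ?_⟩
  filter_upwards [h, eventually_ge_atTop 1, pow_big 1 one_pos (2 / δ)]
    with x hx hx1 hxδ P a N₁ N₂ hP hPK hN₁ hcase htiny hm
  rw [Real.rpow_one, div_le_iff₀ hδ] at hxδ
  have hxr1 : (1 : ℝ) ≤ x := by exact_mod_cast hx1
  have hC : C * x ≤ |C| * x := mul_le_mul_of_nonneg_right (le_abs_self C) (by linarith)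
  rcases hcase with ⟨h1, h2, h3⟩ | ⟨h1, h2, h3⟩
  · refine hx P a N₁ N₂ hP hPK ?_ h1 h2 ?_ htiny hm
    · linarith
    · linarith
  · refine le_trans (hx P (fun p => (x : ℤ) + 1 - a p) ((x : ℤ) + 1 - N₁) ((x : ℤ) + 1 - N₂) hP hPK
      ?_ ?_ ?_ ?_ ?_ ?_) (by exact_mod_cast unc_refl x P a)
    · push_cast
      obtain ⟨g1, g2⟩ := abs_le.1 hN₁
      have : (0 : ℝ) ≤ |C| * x := by positivity
      rw [abs_le]
      constructor <;> linarith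
    · omega
    · push_cast
      linarith
    · push_cast
      linarith
    · intro p hp hpD
      obtain ⟨g1, g2⟩ := htiny p hp hpD
      refine ⟨fun g => g1 ((refl_modEq x _ _ p).1 g), g2.imp id fun g => ?_⟩
      have e : (x : ℤ) + 1 - N₁ - ((x : ℤ) + 1 - N₂) = -(N₁ - N₂) := by ring
      rw [e]
      exact (dvd_neg).2 g
    · have e : exc P (fun p => (x : ℤ) + 1 - a p) ((x : ℤ) + 1 - N₁) ((x : ℤ) + 1 - N₂)
          ((x : ℝ) ^ ε) = exc P a N₁ N₂ ((x : ℝ) ^ ε) := by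
        ext p
        rw [mem_exc, mem_exc, refl_modEq, refl_modEq]
      rw [e]
      exact hm

end Pool.Agent.Lib.TC93
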